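import Pool.Agent.P.MP_6b977f_mp.GB.Mult

/-! Restriction of a block orthogonal matrix to one block. -/

namespace Pool.Agent.GraphBerry

open Finset MeasureTheory

noncomputable section

variable {V : Type} [Fintype V] [DecidableEq V] {lam : V → ℝ}

theorem sum_block (O : block lam) {μ : ℝ} {i : V} (hi : i ∈ esp lam μ) (f : V → ℝ) :
    ∑ k ∈ esp lam μ, O.1.1 i k * f k = ∑ k, O.1.1 i k * f k :=
  sum_subset (subset_univ _) fun k _ hk => by
    rw [O.2 i k fun e => hk (mem_filter.2 ⟨mem_univ _, e ▸ (mem_filter.1 hi).2⟩), zero_mul]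

/-- The restriction to a block. -/
def res (μ : ℝ) (O : block lam) : OG (esp lam μ) :=
  ⟨Matrix.of fun i j => O.1.1 i j, Matrix.mem_unitaryGroup_iff.2 (by
    ext i j
    have h := og_row O.1 i j
    rw [← sum_block O i.2, ← sum_coe_sort] at h
    simpa [Matrix.mul_apply, Matrix.one_apply] using h)⟩

theorem cont_res (μ : ℝ) : Continuous (res (lam := lam) μ) :=
  Continuous.subtype_mk (continuous_pi fun i => continuous_pi fun j => by
    have h : Continuous fun O : block lam => O.1.1 i j :=
      (continuous_apply j.1).comp ((continuous_apply i.1).comp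
        (continuous_subtype_val.comp continuous_subtype_val))
    exact h) _

theorem exists_ext (μ : ℝ) (H : OG (esp lam μ)) :
    ∃ H' : block lam, ∀ O, res μ (H' * O) = H * res μ O := by
  let I := esp lam μ
  let M : Matrix V V ℝ := Matrix.of fun i j =>
    if h : i ∈ I ∧ j ∈ I then H.1 ⟨i, h.1⟩ ⟨j, h.2⟩ else if i = j then 1 else 0
  have h1 : ∀ (i : I) (f : V → ℝ), ∑ k, M i k * f k = ∑ k : I, H.1 i k * f k := by
    intro i f
    rw [← sum_subset (subset_univ I), ← sum_coe_sort I]
    · exact sum_congr rfl fun k _ => by simp [M, i.2, k.2]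
    · intro k _ hk
      have : i.1 ≠ k := fun e => hk (e ▸ i.2)
      simp [M, hk, this]
  have h2 : ∀ i ∉ I, ∀ k, M i k = if i = k then 1 else 0 := fun i hi k => by simp [M, hi]
  have h3 : ∀ i ∉ I, ∀ k, M k i = if k = i then 1 else 0 := fun i hi k => by simp [M, hi]
  refine ⟨⟨⟨M, Matrix.mem_unitaryGroup_iff.2 ?_⟩, fun i j h => ?_⟩, fun O => ?_⟩
  · ext i j
    simp only [Matrix.mul_apply, Matrix.star_apply, star_trivial, Matrix.one_apply]
    by_cases hi : i ∈ I
    · by_cases hj : j ∈ I
      · rw [h1 ⟨i, hi⟩, sum_congr rfl (g := fun k => H.1 ⟨i, hi⟩ k * H.1 ⟨j, hj⟩ k)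
          fun k _ => by simp [M, hj], og_row]
        simp
      · simp [h2 j hj, h3 j hj]
    · simp [h2 i hi, h3 i hi, eq_comm]
  · have h4 : ¬ (i ∈ I ∧ j ∈ I) := fun e =>
      h ((mem_filter.1 e.1).2.trans (mem_filter.1 e.2).2.symm)
    have h5 : i ≠ j := fun e => h (by rw [e])
    simp only [M, Matrix.of_apply, dif_neg h4, if_neg h5]
  · ext i j
    exact h1 i fun k => O.1.1 k j

theorem int_res [MeasurableSpace (block lam)] [BorelSpace (block lam)] (m : Measure (block lam))
    [IsProbabilityMeasure m] [m.IsMulLeftInvariant] (μ : ℝ) {f : OG (esp lam μ) → ℝ}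
    (hf : Continuous f) {c : ℝ}
    (h : ∀ [MeasurableSpace (OG (esp lam μ))] [BorelSpace (OG (esp lam μ))]
      (ν : Measure (OG (esp lam μ))) [IsProbabilityMeasure ν] [ν.IsMulLeftInvariant],
      ∫ O, f O ∂ν ≤ c) :
    Integrable (fun O => f (res μ O)) m ∧ ∫ O, f (res μ O) ∂m ≤ c := by
  let _ : MeasurableSpace (OG (esp lam μ)) := borel _
  have : BorelSpace (OG (esp lam μ)) := ⟨rfl⟩
  have hm := (cont_res (lam := lam) μ).measurable
  have : IsProbabilityMeasure (m.map (res μ)) := Measure.isProbabilityMeasure_map hm.aemeasurable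
  have : (m.map (res μ)).IsMulLeftInvariant := ⟨fun H => by
    obtain ⟨H', hH⟩ := exists_ext μ H
    rw [Measure.map_map (measurable_const_mul H) hm]
    conv_rhs => rw [← map_mul_left_eq_self m H', Measure.map_map hm (measurable_const_mul H')]
    congr 1
    exact funext fun O => (hH O).symm⟩
  refine ⟨(integrable_map_measure hf.aestronglyMeasurable hm.aemeasurable).1 (og_int _ hf), ?_⟩
  rw [← integral_map hm.aemeasurable hf.aestronglyMeasurable]
  exact h _

end

end Pool.Agent.GraphBerry
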