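import Mathlib

/-! Definitions used in the statement of `GraphBerry`. -/

namespace Pool.Agent.GraphBerry

/-- The spherical function of the `d`-regular tree with eigenvalue `lam`, at distance `l`. -/
noncomputable def sph (d : ℕ) (lam : ℝ) : ℕ → ℝ
  | 0 => 1
  | 1 => lam / d
  | l + 2 => (lam * sph d lam (l + 1) - sph d lam l) / (d - 1)

/-- Orthogonal matrices that only mix indices with the same eigenvalue. -/
def block {V : Type} [Fintype V] [DecidableEq V] (lam : V → ℝ) :
    Subgroup (Matrix.unitaryGroup V ℝ) where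
  carrier := {O | ∀ i j, lam i ≠ lam j → O.1 i j = 0}
  one_mem' := fun i j h => Matrix.one_apply_ne fun e => h (by rw [e])
  mul_mem' := fun {O P} hO hP i j h => by
    refine Finset.sum_eq_zero fun k _ => ?_
    by_cases e : lam i = lam k
    · exact mul_eq_zero_of_right _ (hP k j (e ▸ h))
    · exact mul_eq_zero_of_left (hO i k e) _
  inv_mem' := fun {O} hO i j h => by
    simpa using hO j i h.symm

/-- The values of `ψ` on a random translate of any `R`-ball have characteristic function within
`ε` of the Gaussian wave of the `d`-regular tree with eigenvalue `lam`. -/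
def Wave {V : Type} [Fintype V] (X : SimpleGraph V) (G : Type) [Group G] [Fintype G]
    [MulAction G V] (d R : ℕ) (ε : ℝ) (ψ : V → ℝ) (lam : ℝ) : Prop :=
  ∀ (o : V) (a : V → ℝ), (∀ u, a u ≠ 0 → X.edist o u ≤ R) → ∑ u, |a u| ≤ R →
    ‖(∑ s : G, Complex.exp (((∑ u, a u * ψ (s • u) : ℝ) : ℂ) * Complex.I)) /
        (Fintype.card G : ℂ) -
      ((Real.exp (-((∑ u, ∑ v, a u * a v * sph d lam (X.dist u v)) / 2)) : ℝ) : ℂ)‖ ≤ ε

end Pool.Agent.GraphBerry
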