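import Pool.Agent.P.MP_6b977f_mp.GB.Paths

/-! Paths, walks, girth and balls. -/

namespace Pool.Agent.GraphBerry

open Finset SimpleGraph

noncomputable section

variable {V : Type} [Inhabited V] {X : SimpleGraph V}

theorem walk_of_red (w : List (V × V)) : Red X w → w ≠ [] → ∀ u v, (hd w).1 = u → (la w).2 = v →
    ∃ p : X.Walk u v, p.length = w.length := by
  induction w with
  | nil => intro _ h; exact absurd rfl h
  | cons e w ih =>
    rintro hw - _ _ rfl rfl
    have he : X.Adj e.1 e.2 := hw.1 e (by simp)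
    by_cases h0 : w = []
    · subst h0
      exact ⟨he.toWalk, rfl⟩
    · obtain ⟨-, h1, h2, -⟩ := (red_append (v := [e]) (by simp) h0).1 hw
      obtain ⟨p, hp⟩ := ih h1 h0 e.2 (la (e :: w)).2 h2.symm (by rw [la_cons h0])
      exact ⟨.cons he p, by simp [hp]⟩

theorem red_of_path {u v : V} (p : X.Walk u v) : p.IsPath → p.length ≠ 0 →
    ∃ w, Red X w ∧ w ≠ [] ∧ w.length = p.length ∧ (hd w).1 = u ∧ (la w).2 = v ∧
      (hd w).2 ∈ p.support := by
  induction p with
  | nil => intro _ h; exact absurd rfl h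
  | @cons x y z h p ih =>
    intro hp _
    rw [Walk.cons_isPath_iff] at hp
    by_cases h0 : p.length = 0
    · have := Walk.eq_of_length_eq_zero h0
      subst this
      exact ⟨[(x, y)], red_single h, by simp, by simp [h0], rfl, rfl, by simp⟩
    · obtain ⟨w, h1, h2, h3, h4, h5, h6⟩ := ih hp.1 h0
      refine ⟨(x, y) :: w, (red_append (v := [(x, y)]) (by simp) h2).2
        ⟨red_single h, h1, h4.symm, fun e => hp.2 ?_⟩, by simp, by simp [h3], rfl,
        by rw [la_cons h2, h5], by simp⟩
      simp only [la_single] at e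
      rwa [e]

theorem red_of_reach {u v : V} (h : X.Reachable u v) (hne : u ≠ v) :
    ∃ w, Red X w ∧ w ≠ [] ∧ w.length = X.dist u v ∧ (hd w).1 = u ∧ (la w).2 = v := by
  obtain ⟨p, hp, hl⟩ := h.exists_path_of_dist
  obtain ⟨w, h1, h2, h3, h4, h5, -⟩ := red_of_path p hp
    (by rw [hl]; exact (h.pos_dist_of_ne hne).ne')
  exact ⟨w, h1, h2, h3.trans hl, h4, h5⟩

theorem path_of_red (k : ℕ)
    (H : ∀ w, Red X w → w ≠ [] → w.length ≤ k → (hd w).1 ≠ (la w).2) (w : List (V × V)) :
    Red X w → w ≠ [] → w.length ≤ k → ∀ u v, (hd w).1 = u → (la w).2 = v → ∃ p : X.Walk u v,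
      p.IsPath ∧ p.length = w.length ∧
        ∀ x ∈ p.support, x = u ∨ ∃ w1 w2, w = w1 ++ w2 ∧ w1 ≠ [] ∧ x = (la w1).2 := by
  induction w with
  | nil => intro _ h; exact absurd rfl h
  | cons e w ih =>
    rintro hw - hk _ _ rfl rfl
    have he : X.Adj e.1 e.2 := hw.1 e (by simp)
    by_cases h0 : w = []
    · subst h0
      refine ⟨.cons he .nil, by simpa using he.ne, rfl, fun x hx => ?_⟩
      have hx' : x ∈ [e.1, e.2] := hx
      simp only [List.mem_cons, List.not_mem_nil, or_false] at hx'
      rcases hx' with rfl | rfl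
      · exact Or.inl rfl
      · exact Or.inr ⟨[e], [], rfl, by simp, rfl⟩
    · obtain ⟨-, h1, h2, -⟩ := (red_append (v := [e]) (by simp) h0).1 hw
      obtain ⟨p, g1, g2, g3⟩ := ih h1 h0 (by simp at hk; omega) e.2 (la (e :: w)).2 h2.symm
        (by rw [la_cons h0])
      have key : ∀ x ∈ p.support, ∃ w1 w2, w = w1 ++ w2 ∧ x = (la (e :: w1)).2 := by
        intro x hx
        rcases g3 x hx with rfl | ⟨w1, w2, a1, a2, a3⟩
        · exact ⟨[], w, rfl, rfl⟩
        · exact ⟨w1, w2, a1, by rw [la_cons a2, a3]⟩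
      refine ⟨.cons he p, ?_, by simp [g2], fun x hx => ?_⟩
      · rw [Walk.cons_isPath_iff]
        refine ⟨g1, fun hu => ?_⟩
        obtain ⟨w1, w2, rfl, a⟩ := key _ hu
        exact H (e :: w1) (Red.left (w := w2) hw) (by simp) (by simp at hk ⊢; omega) a
      · rw [Walk.support_cons, List.mem_cons] at hx
        rcases hx with rfl | hx
        · exact Or.inl rfl
        · obtain ⟨w1, w2, rfl, a⟩ := key _ hx
          exact Or.inr ⟨e :: w1, w2, rfl, by simp, a⟩

theorem not_closed {g : ℕ} (hg : (g : ℕ∞) ≤ X.egirth) (k : ℕ) :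
    k < g → ∀ w, Red X w → w ≠ [] → w.length ≤ k → (hd w).1 ≠ (la w).2 := by
  induction k with
  | zero => intro _ w _ h0 hl; exact absurd (List.length_eq_zero_iff.1 (by omega)) h0
  | succ k ih =>
    intro hk w hw h0 hl h1
    obtain ⟨e, w, rfl⟩ := List.exists_cons_of_ne_nil h0
    have he : X.Adj e.1 e.2 := hw.1 e (by simp)
    by_cases h2 : w = []
    · subst h2
      exact he.ne h1
    obtain ⟨-, a1, a2, a3⟩ := (red_append (v := [e]) (by simp) h2).1 hw
    rw [la_cons h2] at h1
    obtain ⟨p, g1, g2, -⟩ := path_of_red k (ih (by omega)) w a1 h2 (by simpa using hl) e.2 e.1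
      a2.symm h1.symm
    have hc : (Walk.cons he p).IsCycle := by
      rw [Walk.isCycle_iff_isPath_tail_and_le_length]
      refine ⟨by simpa using g1, ?_⟩
      rw [Walk.length_cons, g2]
      match w, h2, a3, h1 with
      | [b], _, a3, h1 => exact absurd h1 a3
      | _ :: _ :: _, _, _, _ => simp
    have := (le_egirth.1 hg) _ _ hc
    rw [Walk.length_cons, g2] at this
    have : g ≤ w.length + 1 := by exact_mod_cast this
    simp at hl
    omega

omit [Inhabited V] in
theorem red_rev {w : List (V × V)} (hw : Red X w) : Red X (w.map Prod.swap).reverse := by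
  refine ⟨?_, ?_⟩
  · intro s hs
    simp only [List.mem_reverse, List.mem_map] at hs
    obtain ⟨t, ht, rfl⟩ := hs
    exact (hw.1 t ht).symm
  · rw [List.isChain_reverse, List.isChain_map]
    exact hw.2.imp fun a b h => ⟨h.1.symm, h.2.symm⟩

theorem hd_rev {w : List (V × V)} (h : w ≠ []) : hd (w.map Prod.swap).reverse = (la w).swap := by
  obtain ⟨w, a, rfl⟩ := (List.eq_nil_or_concat' w).resolve_left h
  simp

theorem inj_of_girth {ρ : ℕ} (hg : ((2 * ρ + 1 : ℕ) : ℕ∞) ≤ X.egirth) : Inj X ρ := by
  have H := not_closed hg (2 * ρ) (by omega)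
  intro u
  induction u with
  | nil => intro v _ _ h; exact absurd rfl h
  | cons a u ih =>
    intro v hu hv _ hv0 h1 h2 h3 h4
    obtain ⟨b, v, rfl⟩ := List.exists_cons_of_ne_nil hv0
    simp only [hd_cons] at h3
    simp only [List.length_cons] at h1 h2
    by_cases hab : a.2 = b.2
    · obtain rfl : a = b := Prod.ext h3 hab
      by_cases a0 : u = [] <;> by_cases b0 : v = []
      · rw [a0, b0]
      · subst a0
        obtain ⟨-, a1, a2, -⟩ := (red_append (v := [a]) (by simp) b0).1 hv
        rw [la_cons b0] at h4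
        exact absurd (a2.symm.trans h4) (H v a1 b0 (by omega))
      · subst b0
        obtain ⟨-, a1, a2, -⟩ := (red_append (v := [a]) (by simp) a0).1 hu
        rw [la_cons a0] at h4
        exact absurd (a2.symm.trans h4.symm) (H u a1 a0 (by omega))
      · obtain ⟨-, a1, a2, -⟩ := (red_append (v := [a]) (by simp) a0).1 hu
        obtain ⟨-, b1, b2, -⟩ := (red_append (v := [a]) (by simp) b0).1 hv
        rw [la_cons a0, la_cons b0] at h4
        rw [ih v a1 b1 a0 b0 (by omega) (by omega) (a2.symm.trans b2) h4]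
    · refine absurd ?_ (H (((a :: u).map Prod.swap).reverse ++ b :: v) ?_ (by simp)
        (by simp; omega))
      · rw [hd_append (by simp), hd_rev (by simp), la_append (by simp)]
        exact h4
      · refine (red_append (by simp) (by simp)).2 ⟨red_rev hu, hv, ?_⟩
        simpa using ⟨h3, hab⟩

omit [Inhabited V] in
theorem exists_ball [Fintype V] [DecidableEq V] [DecidableRel X.Adj] {d : ℕ}
    (hd : X.IsRegularOfDegree d) (o : V) (R : ℕ) :
    ∃ B : Finset V, B.card ≤ (d + 1) ^ R ∧ ∀ u (p : X.Walk u o), p.length ≤ R → u ∈ B := by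
  induction R with
  | zero =>
    exact ⟨{o}, by simp, fun u p hp => by
      simpa using Walk.eq_of_length_eq_zero (Nat.le_zero.1 hp)⟩
  | succ R ih =>
    obtain ⟨B, h1, h2⟩ := ih
    refine ⟨B.biUnion fun v => insert v (X.neighborFinset v), ?_, fun u p hp => ?_⟩
    · refine (card_biUnion_le_card_mul _ _ (d + 1) fun v _ => ?_).trans ?_
      · exact (card_insert_le _ _).trans (by rw [card_neighborFinset_eq_degree, hd])
      · rw [pow_succ]; gcongr
    · cases p with
      | nil => exact mem_biUnion.2 ⟨_, h2 _ .nil (by simp), by simp⟩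
      | cons h p =>
        exact mem_biUnion.2 ⟨_, h2 _ p (by simpa using hp), by simp [h.symm]⟩

omit [Inhabited V] in
theorem walk_of_edist {u v : V} {R : ℕ} (h : X.edist u v ≤ R) :
    ∃ p : X.Walk u v, p.length ≤ R := by
  obtain ⟨p, hp⟩ := exists_walk_of_edist_ne_top (ne_top_of_le_ne_top (by simp) h)
  rw [← hp] at h
  exact ⟨p, by exact_mod_cast h⟩

omit [Inhabited V] in
theorem card_ball [Fintype V] [DecidableEq V] [DecidableRel X.Adj] {d : ℕ}
    (hd : X.IsRegularOfDegree d) (o : V) (R : ℕ) (B : Finset V)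
    (hB : ∀ u ∈ B, X.edist o u ≤ R) : B.card ≤ (d + 1) ^ R := by
  obtain ⟨B', h1, h2⟩ := exists_ball hd o R
  refine (card_le_card fun u hu => ?_).trans h1
  obtain ⟨p, hp⟩ := walk_of_edist (hB u hu)
  exact h2 u p.reverse (by simpa using hp)

section Act

variable {G : Type} [Group G] [MulAction G V]
  (hG : ∀ (a : G) x y, X.Adj x y → X.Adj (a • x) (a • y))
include hG

omit [Inhabited V] in
theorem edist_smul_le (a : G) (u v : V) : X.edist (a • u) (a • v) ≤ X.edist u v := by
  by_cases h : X.edist u v = ⊤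
  · simp [h]
  obtain ⟨p, hp⟩ := exists_walk_of_edist_ne_top h
  let f : X →g X := ⟨fun x => a • x, fun h => hG a _ _ h⟩
  have := edist_le (p.map f)
  rwa [Walk.length_map, hp] at this

omit [Inhabited V] in
theorem edist_smul (a : G) (u v : V) : X.edist (a • u) (a • v) = X.edist u v :=
  le_antisymm (edist_smul_le hG a u v) (by simpa using edist_smul_le hG a⁻¹ (a • u) (a • v))

omit [Inhabited V] in
theorem dist_smul' (a : G) (u v : V) : X.dist (a • u) (a • v) = X.dist u v := by
  rw [SimpleGraph.dist, SimpleGraph.dist, edist_smul hG]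

omit [Inhabited V] in
theorem red_smul (a : G) {w : List (V × V)} (hw : Red X w) :
    Red X (w.map fun e => (a • e.1, a • e.2)) := by
  refine ⟨?_, ?_⟩
  · intro s hs
    obtain ⟨t, ht, rfl⟩ := List.mem_map.1 hs
    exact hG a _ _ (hw.1 t ht)
  · rw [List.isChain_map]
    exact hw.2.imp fun x y h => ⟨by rw [h.1], fun e => h.2 (MulAction.injective a e)⟩

omit hG in
theorem hd_map {w : List (V × V)} (h : w ≠ []) (f : V × V → V × V) : hd (w.map f) = f (hd w) := by
  obtain ⟨a, w, rfl⟩ := List.exists_cons_of_ne_nil h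
  rfl

omit hG in
theorem la_map {w : List (V × V)} (h : w ≠ []) (f : V × V → V × V) : la (w.map f) = f (la w) := by
  obtain ⟨w, a, rfl⟩ := (List.eq_nil_or_concat' w).resolve_left h
  simp

omit [Inhabited V] hG in
theorem fib_le [Fintype V] [DecidableEq V] [DecidableRel X.Adj] [Fintype G] {d r : ℕ}
    (hd : X.IsRegularOfDegree d) (hr : ∀ u v, ∃ a : G, X.edist (a • u) v ≤ r) (u x : V) :
    Fintype.card V * (univ.filter fun a : G => a • u = x).card ≤
      (d + 1) ^ r * Fintype.card G := by
  classical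
  calc _ = ∑ _y : V, (univ.filter fun a : G => a • u = x).card := by simp
    _ ≤ ∑ y : V, (univ.filter fun a : G => X.edist (a • u) y ≤ r).card := by
        refine sum_le_sum fun y _ => ?_
        obtain ⟨c, hc⟩ := hr x y
        refine card_le_card_of_injOn (fun a => c * a) (fun a ha => ?_)
          fun _ _ _ _ h => mul_left_cancel h
        simp only [coe_filter, mem_univ, true_and, Set.mem_ofPred_eq] at ha ⊢
        rwa [mul_smul, ha]
    _ = ∑ a : G, (univ.filter fun y : V => X.edist (a • u) y ≤ r).card := by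
        simp only [card_filter]
        exact sum_comm
    _ ≤ ∑ _a : G, (d + 1) ^ r :=
        sum_le_sum fun a _ => card_ball hd (a • u) r _ fun y hy => (mem_filter.1 hy).2
    _ = _ := by simp [mul_comm]

end Act

end

end Pool.Agent.GraphBerry
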