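import Mathlib

/-! Rows of a Haar orthogonal matrix are nearly Gaussian. -/

namespace Pool.Agent.GraphBerry

open Finset MeasureTheory

noncomputable section

variable {ι : Type} [Fintype ι] [DecidableEq ι]

/-- The orthogonal group. -/
abbrev OG (ι : Type) [Fintype ι] [DecidableEq ι] := unitary (Matrix ι ι ℝ)

theorem og_row (O : OG ι) (i k : ι) : ∑ j, O.1 i j * O.1 k j = if i = k then 1 else 0 := by
  have := congrFun (congrFun O.2.2 i) k
  simpa [Matrix.mul_apply, Matrix.one_apply] using this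

theorem og_col (O : OG ι) (j l : ι) : ∑ k, O.1 k j * O.1 k l = if j = l then 1 else 0 := by
  have := congrFun (congrFun O.2.1 j) l
  simpa [Matrix.mul_apply, Matrix.one_apply] using this

/-- A coordinate of the rotated vector. -/
def rv (O : OG ι) (k : ι) (β : ι → ℝ) : ℝ := ∑ j, O.1 k j * β j

@[fun_prop]
theorem cont_rv (k : ι) (β : ι → ℝ) : Continuous fun O : OG ι => rv O k β :=
  continuous_finsetSum _ fun j _ => by
    have h : Continuous fun O : OG ι => O.1 k j :=
      (continuous_apply j).comp ((continuous_apply k).comp continuous_subtype_val)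
    exact h.mul continuous_const

theorem og_norm (O : OG ι) (β : ι → ℝ) : ∑ k, rv O k β ^ 2 = ∑ j, β j ^ 2 := by
  unfold rv
  have : ∀ k, (∑ j, O.1 k j * β j) ^ 2 = ∑ j, ∑ l, β j * β l * (O.1 k j * O.1 k l) := by
    intro k
    rw [sq, sum_mul_sum]
    exact sum_congr rfl fun j _ => sum_congr rfl fun l _ => by ring
  simp only [this]
  rw [sum_comm]
  refine sum_congr rfl fun j _ => ?_
  rw [sum_comm]
  simp only [← mul_sum, og_col]
  simp [sq]

instance og_compact : CompactSpace (OG ι) := by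
  refine isCompact_iff_compactSpace.1 ?_
  have hc : IsCompact (Set.pi Set.univ fun _ : ι => Set.pi Set.univ fun _ : ι =>
      Set.Icc (-1 : ℝ) 1) :=
    isCompact_univ_pi fun _ => isCompact_univ_pi fun _ => isCompact_Icc
  refine IsCompact.of_isClosed_subset (s := Set.pi Set.univ fun _ : ι => Set.pi Set.univ
    fun _ : ι => Set.Icc (-1 : ℝ) 1) hc ?_ ?_
  · exact isClosed_unitary (R := Matrix ι ι ℝ)
  · intro U hU i _ j _
    exact abs_le.1 (entry_norm_bound_of_unitary hU i j)

theorem exists_row (i : ι) (ω : ι → ℝ) (h : ∑ j, ω j ^ 2 = 1) :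
    ∃ H : OG ι, ∀ j, H.1 i j = ω j := by
  have hv : Orthonormal ℝ (({i} : Set ι).domRestrict
      (fun _ : ι => (WithLp.toLp 2 ω : EuclideanSpace ℝ ι))) := by
    refine ⟨fun _ => ?_, fun a b hab => (hab (Subsingleton.elim _ _)).elim⟩
    simp [Set.domRestrict, EuclideanSpace.norm_eq, h]
  obtain ⟨b, hb⟩ := Orthonormal.exists_orthonormalBasis_extension_of_card_eq
    (by simp) hv
  refine ⟨⟨Matrix.of fun k l => b k l, ?_⟩, fun j => ?_⟩
  · refine Matrix.mem_unitaryGroup_iff.2 ?_
    ext k l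
    have := orthonormal_iff_ite.1 b.orthonormal k l
    rw [PiLp.inner_apply] at this
    simp only [Matrix.mul_apply, Matrix.of_apply, Matrix.star_apply, star_trivial,
      Matrix.one_apply, ← this]
    exact sum_congr rfl fun x _ => by simp [mul_comm]
  · simp [hb i rfl]

/-- Sign vectors. -/
def signs (ι : Type) [Fintype ι] [DecidableEq ι] : Finset (ι → ℝ) :=
  Fintype.piFinset fun _ => {1, -1}

theorem sum_signs {R : Type} [CommSemiring R] (g : ι → ℝ → R) :
    ∑ z ∈ signs ι, ∏ k, g k (z k) = ∏ k, (g k 1 + g k (-1)) := by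
  rw [signs, ← prod_univ_sum]
  exact prod_congr rfl fun k _ => sum_pair (by norm_num)

theorem card_signs : ((signs ι).card : ℝ) = 2 ^ Fintype.card ι := by
  have := sum_signs (ι := ι) (fun _ _ => (1 : ℝ))
  simpa [one_add_one_eq_two] using this

theorem sum_signs_cos (y : ι → ℝ) :
    ∑ z ∈ signs ι, Real.cos (∑ k, z k * y k) = 2 ^ Fintype.card ι * ∏ k, Real.cos (y k) := by
  have := sum_signs (fun k (t : ℝ) => Complex.exp (((t * y k : ℝ) : ℂ) * Complex.I))
  have h2 : ∀ k, Complex.exp (((1 * y k : ℝ) : ℂ) * Complex.I) +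
      Complex.exp (((-1 * y k : ℝ) : ℂ) * Complex.I) = ((2 * Real.cos (y k) : ℝ) : ℂ) := by
    intro k
    push_cast
    rw [Complex.two_cos]
    simp
  simp only [h2, ← Complex.exp_sum, ← sum_mul, ← Complex.ofReal_sum, ← Complex.ofReal_prod] at this
  have h3 := congrArg Complex.re this
  simp only [Complex.re_sum, Complex.exp_ofReal_mul_I_re, Complex.ofReal_re] at h3
  rw [h3, prod_mul_distrib]
  simp

theorem sum_signs_exp (y : ι → ℝ) :
    ∑ z ∈ signs ι, Real.exp (∑ k, z k * y k) ≤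
      2 ^ Fintype.card ι * Real.exp ((∑ k, y k ^ 2) / 2) := by
  have := sum_signs (fun k (t : ℝ) => Real.exp (t * y k))
  simp only [← Real.exp_sum] at this
  rw [this, sum_div, Real.exp_sum, ← card_univ, ← prod_const, ← prod_mul_distrib]
  refine prod_le_prod (fun k _ => by positivity) fun k _ => ?_
  have := Real.cosh_le_exp_half_sq (y k)
  rw [Real.cosh_eq] at this
  simp only [one_mul, neg_mul]
  linarith

theorem pow_four_le (x : ℝ) : x ^ 4 ≤ 24 * (Real.exp x + Real.exp (-x)) := by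
  have h := Real.pow_div_factorial_le_exp |x| (abs_nonneg x) 4
  have e : |x| ^ 4 = x ^ 4 := by rw [← abs_pow, abs_of_nonneg (by positivity)]
  rw [e] at h
  norm_num [Nat.factorial] at h
  have h1 := Real.exp_pos x
  have h2 := Real.exp_pos (-x)
  rcases abs_cases x with ⟨h3, _⟩ | ⟨h3, _⟩ <;> rw [h3] at h <;> linarith

theorem sum_signs_four (y : ι → ℝ) :
    ∑ z ∈ signs ι, (∑ k, z k * y k) ^ 4 ≤
      2 ^ Fintype.card ι * (48 * Real.exp ((∑ k, y k ^ 2) / 2)) := by
  have h1 := sum_signs_exp y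
  have h2 := sum_signs_exp (fun k => - y k)
  simp only [mul_neg, sum_neg_distrib, even_two, Even.neg_pow] at h2
  have := sum_le_sum (s := signs ι) (fun z _ => pow_four_le (∑ k, z k * y k))
  rw [← mul_sum, sum_add_distrib] at this
  linarith

theorem cos_sub_exp (x : ℝ) : |Real.cos x - Real.exp (-(x ^ 2 / 2))| ≤ 2 * x ^ 4 := by
  have e : |x| ^ 4 = x ^ 4 := by rw [← abs_pow, abs_of_nonneg (by positivity)]
  rcases le_total |x| 1 with h | h
  · have h1 := Real.cos_bound h
    have h0 : x ^ 2 ≤ 1 := by rw [← sq_abs]; exact pow_le_one₀ (abs_nonneg _) h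
    have h2 := Real.abs_exp_sub_one_sub_id_le (x := -(x ^ 2 / 2))
      (by rw [abs_neg, abs_of_nonneg (by positivity)]; linarith)
    rw [e] at h1
    rw [abs_le] at h1 h2 ⊢
    have : 0 ≤ x ^ 4 := by positivity
    constructor <;> nlinarith [h1.1, h1.2, h2.1, h2.2]
  · have h1 : 1 ≤ x ^ 4 := e ▸ one_le_pow₀ h
    have h2 := Real.exp_pos (-(x ^ 2 / 2))
    have h3 : Real.exp (-(x ^ 2 / 2)) ≤ 1 := Real.exp_le_one_iff.2 (by nlinarith [sq_nonneg x])
    have := Real.neg_one_le_cos x
    have := Real.cos_le_one x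
    rw [abs_le]
    constructor <;> linarith

theorem abs_prod_sub_prod {κ : Type} (s : Finset κ) (a b : κ → ℝ) (ha : ∀ k, |a k| ≤ 1)
    (hb : ∀ k, |b k| ≤ 1) : |∏ k ∈ s, a k - ∏ k ∈ s, b k| ≤ ∑ k ∈ s, |a k - b k| := by
  classical
  induction s using Finset.induction_on with
  | empty => simp
  | insert k s hk ih =>
    rw [prod_insert hk, prod_insert hk, sum_insert hk]
    have h1 : |∏ k ∈ s, b k| ≤ 1 := by
      rw [abs_prod]; exact prod_le_one (fun _ _ => abs_nonneg _) (fun k _ => hb k)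
    have e : a k * ∏ k ∈ s, a k - b k * ∏ k ∈ s, b k =
        (a k - b k) * ∏ k ∈ s, b k + a k * (∏ k ∈ s, a k - ∏ k ∈ s, b k) := by ring
    rw [e]
    refine (abs_add_le _ _).trans (add_le_add ?_ ?_)
    · rw [abs_mul]; exact mul_le_of_le_one_right (abs_nonneg _) h1
    · rw [abs_mul]; exact (mul_le_of_le_one_left (abs_nonneg _) (ha k)).trans ih

omit [DecidableEq ι] in
theorem prod_cos_sub (y : ι → ℝ) :
    |∏ k, Real.cos (y k) - Real.exp (-((∑ k, y k ^ 2) / 2))| ≤ 2 * ∑ k, y k ^ 4 := by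
  rw [sum_div, ← sum_neg_distrib, Real.exp_sum, mul_sum]
  refine (abs_prod_sub_prod _ _ _ (fun k => Real.abs_cos_le_one _) fun k => ?_).trans
    (sum_le_sum fun k _ => cos_sub_exp _)
  rw [abs_of_pos (Real.exp_pos _)]
  exact Real.exp_le_one_iff.2 (by nlinarith [sq_nonneg (y k)])

section Mean

variable [MeasurableSpace (OG ι)] [BorelSpace (OG ι)] (μ : Measure (OG ι))
  [IsProbabilityMeasure μ] [μ.IsMulLeftInvariant]

omit [μ.IsMulLeftInvariant] in
theorem og_int {f : OG ι → ℝ} (hf : Continuous f) : Integrable f μ :=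
  hf.integrable_of_hasCompactSupport (HasCompactSupport.of_compactSpace f)

theorem mean_signs (i : ι) (β : ι → ℝ) {f : ℝ → ℝ} (hf : Continuous f) :
    2 ^ Fintype.card ι * ∫ O, f (√(Fintype.card ι) * rv O i β) ∂μ =
      ∫ O, ∑ z ∈ signs ι, f (∑ k, z k * rv O k β) ∂μ := by
  have hm : (0 : ℝ) < Fintype.card ι := by
    have : Nonempty ι := ⟨i⟩
    exact_mod_cast Fintype.card_pos
  have hs : 0 < √(Fintype.card ι : ℝ) := Real.sqrt_pos.2 hm
  rw [integral_finsetSum _ (fun z _ => og_int μ (by fun_prop)),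
    ← card_signs, ← nsmul_eq_mul, ← sum_const]
  refine sum_congr rfl fun z hz => ?_
  obtain ⟨H, hH⟩ := exists_row i (fun k => z k / √(Fintype.card ι)) (by
    have : ∀ k, z k ^ 2 = 1 := by
      intro k
      have := Fintype.mem_piFinset.1 hz k
      simp only [mem_insert, mem_singleton] at this
      rcases this with h | h <;> simp [h]
    simp only [div_pow, this, Real.sq_sqrt hm.le]
    simp [hm.ne'])
  rw [← integral_mul_left_eq_self _ H]
  refine integral_congr_ae (ae_of_all _ fun O => ?_)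
  simp only [rv, Submonoid.coe_mul, Matrix.mul_apply, hH, sum_mul, mul_sum]
  rw [sum_comm]
  congr 1
  refine sum_congr rfl fun k _ => sum_congr rfl fun j _ => ?_
  field_simp

theorem mean_four (i : ι) (β : ι → ℝ) :
    ∫ O, rv O i β ^ 4 ∂μ ≤
      48 * Real.exp ((∑ k, β k ^ 2) / 2) / (Fintype.card ι : ℝ) ^ 2 := by
  have hm : (0 : ℝ) < Fintype.card ι := by
    have : Nonempty ι := ⟨i⟩
    exact_mod_cast Fintype.card_pos
  have h := mean_signs μ i β (f := fun x => x ^ 4) (by fun_prop)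
  have h2 : ∫ O, ∑ z ∈ signs ι, (∑ k, z k * rv O k β) ^ 4 ∂μ ≤
      ∫ _, 2 ^ Fintype.card ι * (48 * Real.exp ((∑ k, β k ^ 2) / 2)) ∂μ := by
    refine integral_mono (og_int μ (by fun_prop))
      (integrable_const _) fun O => ?_
    have := sum_signs_four (fun k => rv O k β)
    rwa [og_norm] at this
  have e : √(Fintype.card ι : ℝ) ^ 4 = (Fintype.card ι : ℝ) ^ 2 := by
    rw [show 4 = 2 * 2 by rfl, pow_mul, Real.sq_sqrt hm.le]
  simp only [mul_pow, e, integral_const_mul] at h
  rw [← h, integral_const] at h2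
  simp only [probReal_univ, one_smul] at h2
  rw [le_div_iff₀ (by positivity), mul_comm]
  exact le_of_mul_le_mul_left h2 (by positivity)

theorem mean_cos (i : ι) (β : ι → ℝ) :
    |∫ O, Real.cos (√(Fintype.card ι) * rv O i β) ∂μ -
      Real.exp (-((∑ k, β k ^ 2) / 2))| ≤
        96 * Real.exp ((∑ k, β k ^ 2) / 2) / Fintype.card ι := by
  have hm : (0 : ℝ) < Fintype.card ι := by
    have : Nonempty ι := ⟨i⟩
    exact_mod_cast Fintype.card_pos
  have h := mean_signs μ i β Real.continuous_cos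
  simp only [sum_signs_cos, integral_const_mul] at h
  rw [mul_left_cancel₀ (by positivity) h]
  have e : ∫ O, ∏ k, Real.cos (rv O k β) ∂μ - Real.exp (-((∑ k, β k ^ 2) / 2)) =
      ∫ O, (∏ k, Real.cos (rv O k β) - Real.exp (-((∑ k, β k ^ 2) / 2))) ∂μ := by
    rw [integral_sub (og_int μ (by fun_prop)) (integrable_const _)]
    simp
  rw [e]
  refine abs_integral_le_integral_abs.trans ?_
  have h2 : ∫ O, |∏ k, Real.cos (rv O k β) - Real.exp (-((∑ k, β k ^ 2) / 2))| ∂μ ≤
      ∫ O, 2 * ∑ k, (rv O k β) ^ 4 ∂μ := by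
    refine integral_mono (og_int μ (by fun_prop)) (og_int μ (by fun_prop)) fun O => ?_
    have := prod_cos_sub (fun k => rv O k β)
    rwa [og_norm] at this
  refine h2.trans ?_
  rw [integral_const_mul, integral_finsetSum _ (fun k _ => og_int μ (by fun_prop))]
  have h3 := sum_le_sum (s := univ) fun k _ => mean_four μ k β
  rw [sum_const, card_univ, nsmul_eq_mul] at h3
  refine (mul_le_mul_of_nonneg_left h3 (by norm_num)).trans (le_of_eq ?_)
  field_simp
  norm_num

end Mean

end

end Pool.Agent.GraphBerry
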