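import Pool.Agent.P.MP_6b977f_mp.GB.Space
import Pool.Agent.P.MP_6b977f_mp.GB.Block

/-! Assembly. -/

namespace Pool.Agent.GraphBerry

open Finset Matrix MeasureTheory

noncomputable section

theorem exists_N (A : ℝ) {δ : ℝ} (hδ : 0 < δ) : ∃ N : ℕ, 0 < N ∧ A / N ≤ δ := by
  obtain ⟨N, hN⟩ := exists_nat_gt (max (A / δ) 0)
  have h0 : (0 : ℝ) < N := (le_max_right _ _).trans_lt hN
  refine ⟨N, by exact_mod_cast h0, ?_⟩
  have := (div_lt_iff₀ hδ).1 ((le_max_left _ _).trans_lt hN)
  rw [div_le_iff₀ h0]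
  linarith

theorem radial_eps (q l r : ℕ) (h2 : 2 ≤ q) {β δ : ℝ} (hβ : 1 ≤ β) (hδ : 0 < δ) :
    ∃ ρ : ℕ, ∀ (V : Type) [Fintype V] [DecidableEq V] [Inhabited V] (X : SimpleGraph V)
      [DecidableRel X.Adj] (G : Type) [Group G] [Fintype G] [MulAction G V]
      (b : V → V → ℝ) (lam : V → ℝ), Eb X G b lam β → X.IsRegularOfDegree (q + 1) → Inj X ρ →
      (∀ u v, ∃ a : G, X.edist (a • u) v ≤ r) → ∀ u v, X.Reachable u v → X.dist u v ≤ l →
        ∑ j, (kc G b j u v - sph (q + 1) (lam j) (X.dist u v)) ^ 2 ≤ δ * Fintype.card V := by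
  obtain ⟨N, hN, h⟩ := exists_N ((5 ^ l * (2 * r + 1)) ^ 2 * β * q) hδ
  refine ⟨l + 1 + 2 * N, fun V _ _ _ X _ G _ _ _ b lam E hq hI hr u v huv hl => ?_⟩
  refine (radial E hq h2 hI hN hr huv (by omega)).1.trans ?_
  rw [← mul_assoc, mul_pow, Real.sq_sqrt (by positivity)]
  calc _ = ((5 ^ X.dist u v * (2 * r + 1)) ^ 2 * β * q / N) * (Fintype.card V : ℝ) := by ring
    _ ≤ ((5 ^ l * (2 * r + 1)) ^ 2 * β * q / N) * (Fintype.card V : ℝ) := by gcongr; norm_num
    _ ≤ _ := by gcongr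

theorem few_eps (q r : ℕ) (h2 : 2 ≤ q) {β δ : ℝ} (hβ : 1 ≤ β) (hδ : 0 < δ) :
    ∃ ρ : ℕ, ∀ (V : Type) [Fintype V] [DecidableEq V] [Inhabited V] (X : SimpleGraph V)
      [DecidableRel X.Adj] (G : Type) [Group G] [Fintype G] [MulAction G V]
      (b : V → V → ℝ) (lam : V → ℝ), Eb X G b lam β → X.IsRegularOfDegree (q + 1) → Inj X ρ →
      (∀ u v, ∃ a : G, X.edist (a • u) v ≤ r) →
      ((univ.image lam).card : ℝ) ≤ δ * Fintype.card V := by
  classical
  obtain ⟨L, hL, h3⟩ := exists_N (32 * β) hδ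
  obtain ⟨t, ht, h1⟩ := exists_N (4 * ((q + 1 + 1) ^ L * β ^ 2)) hδ
  obtain ⟨N, hN, h4⟩ := exists_N (128 * (5 ^ (2 * (1 + t)) * (2 * r + 1)) ^ 2 * β * q) hδ
  refine ⟨2 * (1 + t) + 1 + 2 * N, fun V _ _ _ X _ G _ _ _ b lam E hq hI hr => ?_⟩
  have hn : (0 : ℝ) ≤ Fintype.card V := by positivity
  have hq0 : (0 : ℝ) < q := by positivity
  have hL0 : (0 : ℝ) < L := by positivity
  have hpow : ∀ k l : ℕ, k ≤ l → (k : ℝ) ≤ q ^ l := fun k l h => by
    exact_mod_cast h.trans (Nat.lt_two_pow_self.le.trans (Nat.pow_le_pow_left h2 l))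
  have h8 : ∀ l ≤ 2 * (1 + t), (5 ^ l * ((2 * r + 1) * √(β * Fintype.card V * q / N))) ^ 2 ≤
      δ / 128 * Fintype.card V := fun l hl => by
    rw [← mul_assoc, mul_pow, Real.sq_sqrt (by positivity)]
    calc _ = (128 * (5 ^ l * (2 * r + 1)) ^ 2 * β * q / N) / 128 * (Fintype.card V : ℝ) := by ring
      _ ≤ (128 * (5 ^ (2 * (1 + t)) * (2 * r + 1)) ^ 2 * β * q / N) / 128 *
          (Fintype.card V : ℝ) := by gcongr; norm_num
      _ ≤ _ := by gcongr
  obtain ⟨a, ha, -, -⟩ := exists_nbr hq h2 default default default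
  have hr1 := red_single ha
  have hg := good_FamR hr1 (by simp) t
  have hc := card_FamR hq hr1 (by simp) t
  set P := FamR X [(default, a)] t
  have hh : ∀ p ∈ P, (hd p).1 = default := fun p hp => by
    obtain ⟨e, w, rfl⟩ := List.exists_cons_of_ne_nil (hg.ne hp)
    have := (hg _ hp).2.2
    simp only [List.getElem?_cons_zero, hd_cons, Option.some.injEq] at this
    simp [this]
  have hw : ∀ p ∈ P, ∃ w : X.Walk default (la p).2, w.length = 1 + t := fun p hp => by
    obtain ⟨w, h⟩ := walk_of_red p (hg p hp).1 (hg.ne hp) _ _ (hh p hp) rfl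
    exact ⟨w, h.trans (hg p hp).2.1⟩
  have hP : P.Nonempty := card_pos.1 (by rw [hc]; positivity)
  refine (few E P hP (fun p => (la p).2) (c := (q + 1 + 1) ^ L * β ^ 2) (δ := δ / 8)
    (fun p hp => ?_) fun u => ?_).trans ?_
  · have key : ∀ s ∈ P, ∑ j, kc G b j (la p).2 (la s).2 ^ 2 ≤
        (if X.edist (la p).2 (la s).2 ≤ L then β ^ 2 * Fintype.card V else 0) +
          δ / 8 * Fintype.card V := by
      intro s hs
      split_ifs with h
      · have : ∑ j, kc G b j (la p).2 (la s).2 ^ 2 ≤ ∑ _j : V, β ^ 2 := sum_le_sum fun j _ => by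
          rw [← sq_abs]; exact pow_le_pow_left₀ (abs_nonneg _) (abs_kc E _ _ _) 2
        rw [sum_const, card_univ, nsmul_eq_mul, mul_comm] at this
        exact this.trans (le_add_of_nonneg_right (by positivity))
      · obtain ⟨w1, e1⟩ := hw p hp
        obtain ⟨w2, e2⟩ := hw s hs
        have hre := (w1.reverse.append w2).reachable
        have hd1 := X.dist_le (w1.reverse.append w2)
        simp only [SimpleGraph.Walk.length_append, SimpleGraph.Walk.length_reverse] at hd1
        rw [← hre.coe_dist_eq_edist, Nat.cast_le] at h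
        obtain ⟨l, hl⟩ : ∃ l, X.dist (la p).2 (la s).2 = l + 1 :=
          Nat.exists_eq_add_one_of_ne_zero (by omega)
        refine ((radial E hq h2 hI hN hr hre (by omega)).2 l hl).trans ?_
        have h7 : √(β * Fintype.card V / q ^ l) ^ 2 ≤ δ / 32 * Fintype.card V := by
          have := hpow L l (by omega)
          rw [Real.sq_sqrt (by positivity)]
          calc _ ≤ β * (Fintype.card V : ℝ) / L := by gcongr
            _ = 32 * β / L / 32 * Fintype.card V := by ring
            _ ≤ _ := by gcongr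
        have h9 := h8 (l + 1) (by omega)
        nlinarith [sq_nonneg (2 * (5 ^ (l + 1) * ((2 * r + 1) * √(β * Fintype.card V * q / N))) -
          √(β * Fintype.card V / q ^ l))]
    refine (sum_le_sum key).trans ?_
    rw [sum_add_distrib, ← sum_filter, sum_const, sum_const, nsmul_eq_mul, nsmul_eq_mul, add_mul,
      mul_assoc, mul_assoc]
    gcongr
    have h5 : (P.filter fun s => X.edist (la p).2 (la s).2 ≤ L).card ≤ (q + 1 + 1) ^ L := by
      rw [← card_image_of_injOn (f := fun s => (la s).2)]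
      · refine card_ball hq (la p).2 L _ fun u hu => ?_
        obtain ⟨s, hs, rfl⟩ := mem_image.1 hu
        exact (mem_filter.1 hs).2
      · intro s hs s' hs' h
        have g1 := (mem_filter.1 hs).1
        have g2 := (mem_filter.1 hs').1
        refine hI _ _ (hg _ g1).1 (hg _ g2).1 (hg.ne g1) (hg.ne g2) ?_ ?_
          ((hh _ g1).trans (hh _ g2).symm) h
        · rw [(hg _ g1).2.1]; simp; omega
        · rw [(hg _ g2).2.1]; simp; omega
    exact_mod_cast h5
  · have := (radial E hq h2 hI hN hr (SimpleGraph.Reachable.refl u) (by simp)).1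
    rw [SimpleGraph.dist_self] at this
    refine this.trans ((h8 0 (by omega)).trans ?_)
    gcongr
    norm_num
  · gcongr
    have ht0 : (0 : ℝ) < t := by positivity
    have : 2 * (((q : ℝ) + 1 + 1) ^ L * β ^ 2) / P.card ≤ δ / 2 := by
      rw [hc, Nat.cast_pow]
      calc _ ≤ 2 * (((q : ℝ) + 1 + 1) ^ L * β ^ 2) / t := by gcongr; exact hpow t t le_rfl
        _ = 4 * ((q + 1 + 1) ^ L * β ^ 2) / t / 2 := by ring
        _ ≤ _ := by gcongr
    linarith

theorem eb_of {V : Type} [Fintype V] [DecidableEq V] [Nonempty V] (X : SimpleGraph V)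
    [DecidableRel X.Adj] (G : Type) [Group G] [Fintype G] [MulAction G V] {d r : ℕ}
    (hG : ∀ (a : G) x y, X.Adj x y → X.Adj (a • x) (a • y)) (hd : X.IsRegularOfDegree d)
    (hr : ∀ u v, ∃ a : G, X.edist (a • u) v ≤ r) (b : V → V → ℝ) (lam : V → ℝ)
    (h1 : ∀ i j, ∑ x, b i x * b j x = if i = j then (Fintype.card V : ℝ) else 0)
    (h2 : ∀ i, X.adjMatrix ℝ *ᵥ b i = lam i • b i) :
    Eb X G (fun j x => b j x / √(Fintype.card V)) lam ((d + 1) ^ r) := by
  have hn : (0 : ℝ) < Fintype.card V := by exact_mod_cast Fintype.card_pos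
  have h3 : ∀ j k, ∑ x, b j x / √(Fintype.card V) * (b k x / √(Fintype.card V)) =
      if j = k then 1 else 0 := fun j k => by
    simp only [div_mul_div_comm, Real.mul_self_sqrt hn.le, ← sum_div, h1]
    split_ifs <;> simp [hn.ne']
  refine ⟨h3, fun x y => ?_, fun j x => ?_, hG, fun u x => ?_,
    one_le_pow₀ (by linarith [Nat.cast_nonneg (α := ℝ) d])⟩
  · let M : Matrix V V ℝ := Matrix.of fun j x => b j x / √(Fintype.card V)
    have h4 : M * Mᵀ = 1 := by
      ext j k
      simpa [M, Matrix.mul_apply, Matrix.one_apply] using h3 j k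
    have h5 : Mᵀ * M = 1 := mul_eq_one_comm.1 h4
    have := congrFun (congrFun h5 x) y
    simpa [M, Matrix.mul_apply, Matrix.one_apply] using this
  · rw [← sum_div, ← SimpleGraph.adjMatrix_mulVec_apply, h2, mul_div_assoc']
    rfl
  · exact_mod_cast fib_le hd hr u x

theorem wave_of {V : Type} [Fintype V] {X : SimpleGraph V} {G : Type} [Group G] [Fintype G]
    [MulAction G V] {d R : ℕ} {ε : ℝ} {ψ : V → ℝ} {lam : ℝ}
    (h : ∀ (o : V) (a : V → ℝ), (∀ u, a u ≠ 0 → X.edist o u ≤ R) → ∑ u, |a u| ≤ R →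
      ‖chi G ψ a - (Real.exp (-((∑ u, ∑ v, a u * a v * sph d lam (X.dist u v)) / 2)) : ℝ)‖ ≤ ε) :
    Wave X G d R ε ψ lam := h

theorem main (d r R : ℕ) (hd : 3 ≤ d) (ε : ℝ) (hε : 0 < ε) :
    ∃ g : ℕ, ∀ (V : Type) [Fintype V] [DecidableEq V] (X : SimpleGraph V) [DecidableRel X.Adj]
      (G : Type) [Group G] [Fintype G] [MulAction G V],
      (∀ (a : G) x y, X.Adj x y → X.Adj (a • x) (a • y)) →
      (∀ u v, ∃ a : G, X.edist (a • u) v ≤ r) →
      X.IsRegularOfDegree d → (g : ℕ∞) ≤ X.egirth →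
      ∀ (b₁ : V → V → ℝ) (lam : V → ℝ),
        (∀ i j, ∑ x, b₁ i x * b₁ j x = if i = j then (Fintype.card V : ℝ) else 0) →
        (∀ i, X.adjMatrix ℝ *ᵥ b₁ i = lam i • b₁ i) →
        ∀ [MeasurableSpace (block lam)] [BorelSpace (block lam)] (m : Measure (block lam))
          [IsProbabilityMeasure m] [m.IsMulLeftInvariant],
          m {O | ε * Fintype.card V < ({i | ¬ Wave X G d R ε
            (fun x => ∑ j, O.1.1 i j * b₁ j x) (lam i)}.ncard : ℝ)} ≤ ENNReal.ofReal ε := by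
  classical
  obtain ⟨q, rfl⟩ : ∃ q, d = q + 1 := ⟨d - 1, by omega⟩
  have h2 : 2 ≤ q := by omega
  set η := min ε 1 / 2 with hη
  have hη0 : 0 < η := by positivity
  have hη1 : η ≤ 1 / 2 := by have := min_le_right ε 1; linarith
  have hη2 : η ≤ ε / 2 := by have := min_le_left ε 1; linarith
  set b₀ := (q + 1 + 1) ^ (r + R) with hb₀
  set ζ := η / (R + 1) ^ 2 with hζ
  have hζ0 : 0 < ζ := by positivity
  have hb0 : (0 : ℝ) < b₀ := by positivity
  have hβ : (1 : ℝ) ≤ (((q + 1 : ℕ) : ℝ) + 1) ^ r :=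
    one_le_pow₀ (by linarith [Nat.cast_nonneg (α := ℝ) (q + 1)])
  obtain ⟨C, hC, H1⟩ := space_good b₀ R hβ hη0 (by linarith) (show 0 < ε ^ 2 / 4 by positivity)
  obtain ⟨ρ₁, H2⟩ := few_eps q r h2 hβ (show 0 < ε ^ 2 / 4 / (C + 1) by positivity)
  obtain ⟨ρ₂, H3⟩ := radial_eps q (2 * (r + R)) r h2 hβ
    (show 0 < ε / 2 * ζ ^ 2 / b₀ ^ 2 by positivity)
  refine ⟨2 * (ρ₁ + ρ₂) + 1, fun V _ _ X _ G _ _ _ hG hr hreg hg b₁ lam o1 o2 _ _ m _ _ => ?_⟩
  rcases isEmpty_or_nonempty V with hV | hV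
  · simp [Set.eq_empty_of_isEmpty]
  have : Inhabited V := Classical.inhabited_of_nonempty hV
  have E := eb_of X G hG hreg hr b₁ lam o1 o2
  set b : V → V → ℝ := fun j x => b₁ j x / √(Fintype.card V) with hbdef
  have hI := inj_of_girth hg
  have hI1 : Inj X ρ₁ := fun u v h1 h2 h3 h4 h5 h6 => hI u v h1 h2 h3 h4 (by omega) (by omega)
  have hI2 : Inj X ρ₂ := fun u v h1 h2 h3 h4 h5 h6 => hI u v h1 h2 h3 h4 (by omega) (by omega)
  set B : Finset V := univ.filter fun u => X.edist default u ≤ (r + R : ℕ) with hBdef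
  have hB : B.card ≤ b₀ := card_ball hreg default _ B fun u hu => (mem_filter.1 hu).2
  choose F hFc hF0 hFi hgood using fun μ => H1 V X G b lam E μ B hB
  have hn : (0 : ℝ) < Fintype.card V := by exact_mod_cast Fintype.card_pos
  have hmem : ∀ i, i ∈ esp lam (lam i) := fun i => by simp [esp]
  let dev : V → ℝ := fun i => ∑ u ∈ B, ∑ v ∈ B,
    (Kp G b (esp lam (lam i)) u v - sph (q + 1) (lam i) (X.dist u v)) ^ 2
  have hdev0 : ∀ i, 0 ≤ dev i := fun i => by positivity
  have hdev : ∑ i, dev i ≤ ε / 2 * ζ ^ 2 * Fintype.card V := by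
    have h1 : ∀ u ∈ B, ∀ v ∈ B, ∑ i, (Kp G b (esp lam (lam i)) u v -
        sph (q + 1) (lam i) (X.dist u v)) ^ 2 ≤ ε / 2 * ζ ^ 2 / b₀ ^ 2 * Fintype.card V := by
      intro u hu v hv
      obtain ⟨w1, e1⟩ := walk_of_edist (mem_filter.1 hu).2
      obtain ⟨w2, e2⟩ := walk_of_edist (mem_filter.1 hv).2
      have hd1 := X.dist_le (w1.reverse.append w2)
      simp only [SimpleGraph.Walk.length_append, SimpleGraph.Walk.length_reverse] at hd1
      refine le_trans ?_ (H3 V X G b lam E hreg hI2 hr u v (w1.reverse.append w2).reachable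
        (by omega))
      rw [← sum_esp lam, ← sum_esp lam (fun j => (kc G b j u v - _) ^ 2)]
      refine sum_le_sum fun μ hμ => ?_
      obtain ⟨j, -, rfl⟩ := mem_image.1 hμ
      have e1 : ∀ i ∈ esp lam (lam j), lam i = lam j := fun i hi => (mem_filter.1 hi).2
      have e2 : ∑ i ∈ esp lam (lam j), (Kp G b (esp lam (lam i)) u v -
          sph (q + 1) (lam i) (X.dist u v)) ^ 2 = (esp lam (lam j)).card *
          (Kp G b (esp lam (lam j)) u v - sph (q + 1) (lam j) (X.dist u v)) ^ 2 := by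
        rw [← nsmul_eq_mul, ← sum_const]
        exact sum_congr rfl fun i hi => by rw [e1 i hi]
      have e3 : ∑ i ∈ esp lam (lam j), (kc G b i u v - sph (q + 1) (lam i) (X.dist u v)) ^ 2 =
          ∑ i ∈ esp lam (lam j), (kc G b i u v - sph (q + 1) (lam j) (X.dist u v)) ^ 2 :=
        sum_congr rfl fun i hi => by rw [e1 i hi]
      rw [e2, e3]
      exact Kp_dev ⟨j, hmem j⟩ _ _ _
    rw [sum_comm]
    simp only [sum_comm (s := univ) (t := B)]
    refine (sum_le_sum fun u hu => sum_le_sum fun v hv => h1 u hu v hv).trans ?_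
    simp only [sum_const, nsmul_eq_mul]
    have : (B.card : ℝ) ≤ b₀ := by exact_mod_cast hB
    calc _ ≤ (b₀ : ℝ) * (b₀ * (ε / 2 * ζ ^ 2 / b₀ ^ 2 * Fintype.card V)) := by gcongr
      _ = _ := by field_simp
  let Φ : block lam → ℝ := fun O => ∑ μ ∈ univ.image lam, ∑ i ∈ esp lam μ, F μ (res μ O) i
  have hint := fun μ => int_res m μ (f := fun O => ∑ i ∈ esp lam μ, F μ O i)
    (continuous_finsetSum _ fun i _ => hFc μ i) (hFi μ)
  have hΦ : ∫ O, Φ O ∂m ≤ ε / 2 * Fintype.card V * ε := by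
    rw [integral_finsetSum _ fun μ _ => (hint μ).1]
    refine (sum_le_sum fun μ _ => (hint μ).2).trans ?_
    have h4 := sum_esp lam (fun _ => 1)
    simp only [sum_const, nsmul_eq_mul, mul_one, card_univ] at h4
    rw [sum_add_distrib, ← mul_sum, h4, sum_const, nsmul_eq_mul]
    have h5 := H2 V X G b lam E hreg hI1 hr
    have h6 : ε ^ 2 / 4 / (C + 1) * Fintype.card V * C ≤ ε ^ 2 / 4 * Fintype.card V := by
      calc _ = ε ^ 2 / 4 * Fintype.card V * (C / (C + 1)) := by ring
        _ ≤ _ := mul_le_of_le_one_right (by positivity)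
          (div_le_one_of_le₀ (by linarith) (by positivity))
    nlinarith
  have hM := (mul_meas_ge_le_integral_of_nonneg (μ := m) (f := Φ)
    (ae_of_all _ fun O => sum_nonneg fun μ _ => sum_nonneg fun i _ => hF0 _ _ _)
    (integrable_finsetSum _ fun μ _ => (hint μ).1) (ε / 2 * Fintype.card V)).trans hΦ
  have hM' := le_of_mul_le_mul_left hM (by positivity)
  refine le_trans (measure_mono fun O hO => ?_)
    ((ENNReal.le_ofReal_iff_toReal_le (measure_ne_top _ _) hε.le).2 hM')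
  by_contra hΦO
  simp only [Set.mem_ofPred_eq, not_le] at hO hΦO
  have h3 : ((univ.filter fun i => ζ ^ 2 ≤ dev i).card : ℝ) * ζ ^ 2 ≤ ∑ i, dev i := by
    rw [← nsmul_eq_mul, ← sum_const]
    exact (sum_le_sum fun i hi => (mem_filter.1 hi).2).trans
      (sum_le_sum_of_subset_of_nonneg (subset_univ _) fun i _ _ => hdev0 i)
  have h4 : ((univ.filter fun i => ζ ^ 2 ≤ dev i).card : ℝ) ≤ ε / 2 * Fintype.card V :=
    le_of_mul_le_mul_right (h3.trans (hdev.trans (le_of_eq (by ring)))) (pow_pos hζ0 2)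
  have h5 : ((univ.filter fun i => 1 ≤ F (lam i) (res (lam i) O) i).card : ℝ) ≤ Φ O := by
    have e : Φ O = ∑ i, F (lam i) (res (lam i) O) i := by
      rw [← sum_esp lam]
      refine sum_congr rfl fun μ _ => sum_congr rfl fun i hi => ?_
      obtain rfl : lam i = μ := (mem_filter.1 hi).2
      rfl
    rw [e, card_eq_sum_ones, Nat.cast_sum, Nat.cast_one]
    exact (sum_le_sum fun i hi => (mem_filter.1 hi).2).trans
      (sum_le_sum_of_subset_of_nonneg (subset_univ _) fun i _ _ => hF0 _ _ _)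
  suffices key : {i | ¬ Wave X G (q + 1) R ε (fun x => ∑ j, O.1.1 i j * b₁ j x) (lam i)} ⊆
      ↑((univ.filter fun i => 1 ≤ F (lam i) (res (lam i) O) i) ∪
        univ.filter fun i => ζ ^ 2 ≤ dev i) by
    have h6 := (Set.ncard_le_ncard key).trans ((Set.ncard_coe_finset _).trans_le
      (card_union_le _ _))
    have h7 := hO.trans_le (Nat.cast_le.2 h6)
    push_cast at h7
    linarith
  intro i hW
  by_contra hi
  refine hW ?_
  let c : V → ℝ := fun j => √(Fintype.card V) * O.1.1 i j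
  have e0 : (fun x => ∑ j, O.1.1 i j * b₁ j x) = fun x => ∑ j ∈ esp lam (lam i), c j * b j x := by
    ext x
    rw [← sum_block O (hmem i)]
    refine sum_congr rfl fun j _ => ?_
    have := (Real.sqrt_pos.2 hn).ne'
    simp only [c, hbdef]
    field_simp
  rw [e0]
  rw [mem_coe] at hi
  · refine wave_of fun o a₀ ha₀ hR₀ => ?_
    obtain ⟨s, hs⟩ := hr o default
    suffices H : ∀ a : V → ℝ, (∀ u, a u ≠ 0 → X.edist default u ≤ (r + R : ℕ)) →
        ∑ u, |a u| ≤ R → ‖chi G (fun x => ∑ j ∈ esp lam (lam i), c j * b j x) a -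
          (Real.exp (-((∑ u, ∑ v, a u * a v *
            sph (q + 1) (lam i) (X.dist u v)) / 2)) : ℝ)‖ ≤ ε by
      have := H (fun u => a₀ (s⁻¹ • u)) (fun u hu => by
        have h1 := ha₀ _ hu
        rw [← edist_smul hG s, smul_inv_smul] at h1
        rw [SimpleGraph.edist_comm] at hs
        push_cast
        exact SimpleGraph.edist_triangle.trans (add_le_add hs h1))
        (by rwa [sum_smul' (fun u => |a₀ u|)])
      have e1 : chi G (fun x => ∑ j ∈ esp lam (lam i), c j * b j x) a₀ =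
          chi G (fun x => ∑ j ∈ esp lam (lam i), c j * b j x) fun u => a₀ (s⁻¹ • u) := by
        rw [chi, chi]
        congr 1
        refine Fintype.sum_equiv (Equiv.mulRight s⁻¹) _ _ fun h => ?_
        rw [← sum_smul' _ s⁻¹]
        simp [mul_smul]
      have e2 : ∑ u, ∑ v, a₀ u * a₀ v * sph (q + 1) (lam i) (X.dist u v) =
          ∑ u, ∑ v, a₀ (s⁻¹ • u) * a₀ (s⁻¹ • v) * sph (q + 1) (lam i) (X.dist u v) := by
        rw [← sum_smul' _ s⁻¹]
        refine sum_congr rfl fun u _ => ?_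
        rw [← sum_smul' _ s⁻¹]
        simp only [dist_smul' hG]
      rw [e1, e2]
      exact this
    intro a ha hR
    rw [mem_union, not_or] at hi
    have h0 : ∀ u ∉ B, a u = 0 := fun u hu => by
      by_contra h
      exact hu (mem_filter.2 ⟨mem_univ _, ha u h⟩)
    have h1 := hgood (lam i) (res (lam i) O) i (hmem i)
      (not_le.1 fun h => hi.1 (mem_filter.2 ⟨mem_univ _, h⟩)) c (fun _ => rfl) a h0 hR
    have h3 : dev i < ζ ^ 2 := not_le.1 fun h => hi.2 (mem_filter.2 ⟨mem_univ _, h⟩)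
    have h4 := form_le a a (fun u v => Kp G b (esp lam (lam i)) u v -
      sph (q + 1) (lam i) (X.dist u v)) (η := ζ) fun u v hu hv => by
        have hu' : u ∈ B := mem_filter.2 ⟨mem_univ _, ha u hu⟩
        have hv' : v ∈ B := mem_filter.2 ⟨mem_univ _, ha v hv⟩
        refine (abs_lt_of_sq_lt_sq (lt_of_le_of_lt ?_ h3) hζ0.le).le
        refine le_trans ?_ (single_le_sum (f := fun u => ∑ v ∈ B,
          (Kp G b (esp lam (lam i)) u v - sph (q + 1) (lam i) (X.dist u v)) ^ 2)
          (fun _ _ => by positivity) hu')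
        exact single_le_sum (f := fun v =>
          (Kp G b (esp lam (lam i)) u v - sph (q + 1) (lam i) (X.dist u v)) ^ 2)
          (fun _ _ => by positivity) hv'
    simp only [mul_sub, sum_sub_distrib] at h4
    have h5 : (∑ u, |a u|) * (∑ u, |a u|) * ζ ≤ η := by
      have : 0 ≤ ∑ u, |a u| := by positivity
      calc _ ≤ ((R : ℝ) + 1) * (R + 1) * ζ := by gcongr <;> linarith
        _ = η := by rw [hζ]; field_simp
    have h6 := exp_lip (x := sg (Kp G b (esp lam (lam i))) a)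
      (y := ∑ u, ∑ v, a u * a v * sph (q + 1) (lam i) (X.dist u v))
      (by rw [← gam_sq E _ a (1 : G)]; positivity) (by rw [sg]; linarith)
    rw [← Real.norm_eq_abs, ← Complex.norm_real, Complex.ofReal_sub] at h6
    have := norm_add_le_of_le h1 h6
    rw [sub_add_sub_cancel] at this
    rw [sg] at this
    linarith

end

end Pool.Agent.GraphBerry
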