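import Pool.Agent.P.MP_6b977f_mp.GB.Haar

/-! A good orthogonal matrix exists. -/

namespace Pool.Agent.GraphBerry

open Finset MeasureTheory

noncomputable section

variable {ι : Type} [Fintype ι] [DecidableEq ι] {X : Type} [Fintype X]

/-- Squared distance of the empirical characteristic function from `c`. -/
def dfc (θ : X → ℝ) (c : ℝ) : ℝ :=
  ((∑ x, Real.cos (θ x)) / Fintype.card X - c) ^ 2 + ((∑ x, Real.sin (θ x)) / Fintype.card X) ^ 2

theorem dfc_nonneg (θ : X → ℝ) (c : ℝ) : 0 ≤ dfc θ c := by unfold dfc; positivity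

theorem dfc_eq (θ : X → ℝ) (c : ℝ) : dfc θ c =
    (∑ x, ∑ y, Real.cos (θ x - θ y)) / (Fintype.card X : ℝ) ^ 2 -
      2 * c * ((∑ x, Real.cos (θ x)) / Fintype.card X) + c ^ 2 := by
  simp only [Real.cos_sub, sum_add_distrib, ← mul_sum, ← sum_mul, dfc]
  ring

theorem norm_sq_dfc (θ : X → ℝ) (c : ℝ) :
    ‖(∑ x, Complex.exp ((θ x : ℂ) * Complex.I)) / (Fintype.card X : ℂ) - (c : ℂ)‖ ^ 2 =
      dfc θ c := by
  rw [Complex.sq_norm, Complex.normSq_apply, dfc, ← Complex.ofReal_natCast]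
  simp only [Complex.sub_re, Complex.sub_im, Complex.div_ofReal_re, Complex.div_ofReal_im,
    Complex.re_sum, Complex.im_sum, Complex.exp_ofReal_mul_I_re, Complex.exp_ofReal_mul_I_im,
    Complex.ofReal_re, Complex.ofReal_im]
  ring

theorem exp_le_add {σ τ θ : ℝ} (h : τ ≤ σ) (hθ : 0 < θ) :
    Real.exp (-σ + τ) ≤ Real.exp (-σ) + (θ + τ ^ 2 / θ) := by
  have h1 : τ ≤ θ + τ ^ 2 / θ := by
    rw [add_div' _ _ _ hθ.ne', le_div_iff₀ hθ]
    nlinarith [sq_nonneg (τ - θ), sq_nonneg τ, sq_nonneg θ]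
  rcases le_total τ 0 with h0 | h0
  · have := Real.exp_le_exp.2 (show -σ + τ ≤ -σ by linarith)
    have : 0 ≤ θ + τ ^ 2 / θ := by positivity
    linarith
  · have h2 : Real.exp (-σ + τ) ≤ 1 := Real.exp_le_one_iff.2 (by linarith)
    have h3 := Real.add_one_le_exp (-τ)
    have e : Real.exp (-σ) = Real.exp (-σ + τ) * Real.exp (-τ) := by
      rw [← Real.exp_add]; ring_nf
    have h4 := Real.exp_pos (-σ + τ)
    nlinarith

theorem mean_dfc [MeasurableSpace (OG ι)] [BorelSpace (OG ι)] (μ : Measure (OG ι))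
    [IsProbabilityMeasure μ] [μ.IsMulLeftInvariant] [Nonempty X] (i : ι) (γ : X → ι → ℝ)
    {σ A θ : ℝ} (hθ : 0 < θ) (hσ : ∀ x, ∑ j, γ x j ^ 2 = σ) (hA : σ ≤ A ^ 2)
    (hop : ∀ c : ι → ℝ, ∑ x, (∑ j, c j * γ x j) ^ 2 ≤
      Fintype.card X / Fintype.card ι * A ^ 2 * ∑ j, c j ^ 2) :
    ∫ O, dfc (fun x => √(Fintype.card ι) * rv O i (γ x)) (Real.exp (-(σ / 2))) ∂μ ≤
      θ + (A ^ 4 / θ + 288 * Real.exp (2 * A ^ 2)) / Fintype.card ι := by
  have hm : (0 : ℝ) < Fintype.card ι := by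
    have : Nonempty ι := ⟨i⟩
    exact_mod_cast Fintype.card_pos
  have hn : (0 : ℝ) < Fintype.card X := by exact_mod_cast Fintype.card_pos
  have hσ0 : 0 ≤ σ := by
    rw [← hσ (Classical.arbitrary X)]; positivity
  set m : ℝ := (Fintype.card ι : ℝ) with hm'
  set n : ℝ := (Fintype.card X : ℝ) with hn'
  set c := Real.exp (-(σ / 2)) with hc
  set e₁ := 96 * Real.exp (2 * A ^ 2) / m with he
  have hc0 : 0 < c := Real.exp_pos _
  have hc1 : c ≤ 1 := Real.exp_le_one_iff.2 (by linarith)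
  have hcc : c ^ 2 = Real.exp (-σ) := by rw [hc, ← Real.exp_nat_mul]; congr 1; push_cast; ring
  have hsub : ∀ (O : OG ι) x y, √m * rv O i (γ x) - √m * rv O i (γ y) =
      √m * rv O i (fun j => γ x j - γ y j) := by
    intro O x y
    simp only [rv, mul_sub, sum_sub_distrib]
  have hexp : ∀ x y, ∑ j, (γ x j - γ y j) ^ 2 = 2 * σ - 2 * ∑ j, γ y j * γ x j := by
    intro x y
    simp only [sub_sq, sum_add_distrib, sum_sub_distrib, hσ, mul_sum]
    rw [sum_congr rfl (g := fun j => 2 * (γ y j * γ x j)) fun j _ => by ring]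
    ring
  have hadd : ∀ x y, -σ ≤ ∑ j, γ y j * γ x j := by
    intro x y
    have : 0 ≤ ∑ j, (γ x j + γ y j) ^ 2 := by positivity
    simp only [add_sq, sum_add_distrib, hσ] at this
    rw [sum_congr rfl (g := fun j => 2 * (γ y j * γ x j)) fun j _ => by ring, ← mul_sum] at this
    linarith
  have h1 : ∀ x y, ∫ O, Real.cos (√m * rv O i (fun j => γ x j - γ y j)) ∂μ ≤
      c ^ 2 + (θ + (∑ j, γ y j * γ x j) ^ 2 / θ) + e₁ := by
    intro x y
    have h := (abs_le.1 (mean_cos μ i (fun j => γ x j - γ y j))).2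
    have h0 : 0 ≤ ∑ j, (γ x j - γ y j) ^ 2 := by positivity
    rw [hexp] at h h0
    have h2 := exp_le_add (σ := σ) (τ := ∑ j, γ y j * γ x j) (by linarith) hθ
    have h3 : 96 * Real.exp ((2 * σ - 2 * ∑ j, γ y j * γ x j) / 2) / m ≤ e₁ := by
      have := hadd x y
      rw [he]; gcongr; linarith
    rw [show -((2 * σ - 2 * ∑ j, γ y j * γ x j) / 2) = -σ + ∑ j, γ y j * γ x j by ring] at h
    linarith
  have h2 : ∀ x, c - e₁ ≤ ∫ O, Real.cos (√m * rv O i (γ x)) ∂μ := by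
    intro x
    have h := (abs_le.1 (mean_cos μ i (γ x))).1
    rw [hσ] at h
    have h3 : 96 * Real.exp (σ / 2) / m ≤ e₁ := by
      rw [he]; gcongr; nlinarith
    linarith
  have h3 : ∑ x, ∑ y, (∑ j, γ y j * γ x j) ^ 2 ≤ n ^ 2 * (A ^ 4 / m) := by
    rw [sum_comm]
    refine (sum_le_sum fun y _ => hop (γ y)).trans ?_
    simp only [hσ, sum_const, card_univ, nsmul_eq_mul, ← hn']
    calc n * (n / m * A ^ 2 * σ) ≤ n * (n / m * A ^ 2 * A ^ 2) := by gcongr
      _ = _ := by ring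
  simp only [dfc_eq, hsub]
  rw [integral_add (og_int μ (by fun_prop)) (integrable_const _),
    integral_sub (og_int μ (by fun_prop)) (og_int μ (by fun_prop)), integral_div,
    integral_const_mul, integral_div, integral_finsetSum _ fun x _ => og_int μ (by fun_prop),
    integral_finsetSum _ fun x _ => og_int μ (by fun_prop)]
  simp only [integral_const, probReal_univ, one_smul, ← hn']
  have h4 : ∑ x, ∫ O, ∑ y, Real.cos (√m * rv O i (fun j => γ x j - γ y j)) ∂μ ≤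
      n ^ 2 * (c ^ 2 + θ + e₁ + A ^ 4 / m / θ) := by
    have : ∀ x, ∫ O, ∑ y, Real.cos (√m * rv O i (fun j => γ x j - γ y j)) ∂μ ≤
        ∑ y, (c ^ 2 + (θ + (∑ j, γ y j * γ x j) ^ 2 / θ) + e₁) := fun x => by
      rw [integral_finsetSum _ fun y _ => og_int μ (by fun_prop)]
      exact sum_le_sum fun y _ => h1 x y
    refine (sum_le_sum fun x _ => this x).trans ?_
    simp only [sum_add_distrib, sum_const, card_univ, nsmul_eq_mul, ← hn', ← sum_div]
    have := div_le_div_of_nonneg_right h3 hθ.le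
    rw [mul_div_assoc] at this
    nlinarith
  have h5 : n * (c - e₁) ≤ ∑ x, ∫ O, Real.cos (√m * rv O i (γ x)) ∂μ := by
    have := sum_le_sum (s := univ) fun x _ => h2 x
    rwa [sum_const, card_univ, nsmul_eq_mul] at this
  rw [← div_le_iff₀' (by positivity)] at h4
  rw [← le_div_iff₀' hn] at h5
  have h6 : 0 ≤ e₁ := by positivity
  have e : (A ^ 4 / θ + 288 * Real.exp (2 * A ^ 2)) / m = A ^ 4 / m / θ + 3 * e₁ := by
    rw [he]; ring
  rw [e]
  nlinarith

theorem cont_dfc (i : ι) (γ : X → ι → ℝ) (c : ℝ) :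
    Continuous fun O : OG ι => dfc (fun x => √(Fintype.card ι) * rv O i (γ x)) c := by
  unfold dfc
  fun_prop

theorem mean_good [MeasurableSpace (OG ι)] [BorelSpace (OG ι)] (μ : Measure (OG ι))
    [IsProbabilityMeasure μ] [μ.IsMulLeftInvariant] {τ : Type} [Nonempty X] (T : Finset τ)
    (γ : τ → X → ι → ℝ) (σ : τ → ℝ) {A θ : ℝ} (hθ : 0 < θ)
    (hσ : ∀ t ∈ T, ∀ x, ∑ j, γ t x j ^ 2 = σ t) (hA : ∀ t ∈ T, σ t ≤ A ^ 2)
    (hop : ∀ t ∈ T, ∀ c : ι → ℝ, ∑ x, (∑ j, c j * γ t x j) ^ 2 ≤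
      Fintype.card X / Fintype.card ι * A ^ 2 * ∑ j, c j ^ 2) :
    ∫ O, ∑ i, ∑ t ∈ T,
      dfc (fun x => √(Fintype.card ι) * rv O i (γ t x)) (Real.exp (-(σ t / 2))) ∂μ ≤
        T.card * (θ * Fintype.card ι + (A ^ 4 / θ + 288 * Real.exp (2 * A ^ 2))) := by
  rw [integral_finsetSum _ fun i _ => og_int μ
    (continuous_finsetSum _ fun t _ => cont_dfc i _ _)]
  have : ∀ i : ι, ∫ O, ∑ t ∈ T, dfc (fun x => √(Fintype.card ι) * rv O i (γ t x))
      (Real.exp (-(σ t / 2))) ∂μ ≤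
        T.card * (θ + (A ^ 4 / θ + 288 * Real.exp (2 * A ^ 2)) / Fintype.card ι) := by
    intro i
    rw [integral_finsetSum _ fun t _ => og_int μ (cont_dfc i _ _), ← nsmul_eq_mul, ← sum_const]
    exact sum_le_sum fun t ht => mean_dfc μ i (γ t) hθ (hσ t ht) (hA t ht) (hop t ht)
  refine (sum_le_sum fun i _ => this i).trans ?_
  rw [sum_const, card_univ, nsmul_eq_mul]
  rcases Nat.eq_zero_or_pos (Fintype.card ι) with h | h
  · simp only [h, Nat.cast_zero, zero_mul, mul_zero, zero_add]; positivity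
  · have : (0 : ℝ) < Fintype.card ι := by exact_mod_cast h
    refine le_of_eq ?_
    field_simp

end

end Pool.Agent.GraphBerry
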