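import Pool.Agent.P.MP_6b977f_mp.GB.Proj
import Pool.Agent.P.MP_6b977f_mp.GB.Wave

/-! Projectors, multiplicities and auxiliary estimates. -/

namespace Pool.Agent.GraphBerry

open Finset

noncomputable section

variable {V : Type} [Fintype V]

theorem norm_exp_sub (s t : ℝ) :
    ‖Complex.exp ((s : ℂ) * Complex.I) - Complex.exp ((t : ℂ) * Complex.I)‖ ≤ |s - t| := by
  have e : Complex.exp ((s : ℂ) * Complex.I) - Complex.exp ((t : ℂ) * Complex.I) =
      Complex.exp ((t : ℂ) * Complex.I) * (Complex.exp (Complex.I * ((s - t : ℝ) : ℂ)) - 1) := by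
    rw [mul_sub, ← Complex.exp_add, mul_one]
    congr 2
    push_cast
    ring
  rw [e, norm_mul, Complex.norm_exp_ofReal_mul_I, one_mul]
  exact Real.norm_exp_I_mul_ofReal_sub_one_le

theorem form_le (a a' : V → ℝ) (K : V → V → ℝ) {η : ℝ}
    (h : ∀ u v, a u ≠ 0 → a' v ≠ 0 → |K u v| ≤ η) :
    |∑ u, ∑ v, a u * a' v * K u v| ≤ (∑ u, |a u|) * (∑ u, |a' u|) * η := by
  rw [sum_mul_sum, sum_mul]
  refine (abs_sum_le_sum_abs _ _).trans (sum_le_sum fun u _ => ?_)
  rw [sum_mul]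
  refine (abs_sum_le_sum_abs _ _).trans (sum_le_sum fun v _ => ?_)
  by_cases hu : a u = 0
  · simp [hu]
  by_cases hv : a' v = 0
  · simp [hv]
  rw [abs_mul, abs_mul]
  exact mul_le_mul_of_nonneg_left (h u v hu hv) (by positivity)

theorem exp_lip {x y : ℝ} (hx : 0 ≤ x) (h : |x - y| ≤ 1) :
    |Real.exp (-(x / 2)) - Real.exp (-(y / 2))| ≤ |x - y| := by
  have e : Real.exp (-(x / 2)) - Real.exp (-(y / 2)) =
      -(Real.exp (-(x / 2)) * (Real.exp ((x - y) / 2) - 1)) := by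
    rw [mul_sub, ← Real.exp_add]; ring_nf
  have h1 := Real.abs_exp_sub_one_le (x := (x - y) / 2) (by rw [abs_div, abs_two]; linarith)
  rw [abs_div, abs_two] at h1
  rw [e, abs_neg, abs_mul, abs_of_pos (Real.exp_pos _)]
  refine (mul_le_of_le_one_left (abs_nonneg _) (Real.exp_le_one_iff.2 (by linarith))).trans ?_
  linarith

variable [DecidableEq V]

/-- The net of test vectors. -/
def net (B : Finset V) (t R : ℕ) : Finset (V → ℤ) :=
  (Fintype.piFinset fun u => if u ∈ B then Icc (-(t * R : ℤ)) (t * R) else {0}).filter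
    fun h => ∑ u, |(h u : ℝ) / t| ≤ R + 1

theorem card_net (B : Finset V) (t R : ℕ) : (net B t R).card ≤ (2 * (t * R) + 1) ^ B.card := by
  refine (card_filter_le _ _).trans (le_of_eq ?_)
  rw [Fintype.card_piFinset]
  simp only [apply_ite card, card_singleton, prod_ite_mem, univ_inter, prod_const, Int.card_Icc]
  congr 1
  rw [show ((t : ℤ) * R + 1 - -(t * R)) = ((2 * (t * R) + 1 : ℕ) : ℤ) by push_cast; ring]
  exact Int.toNat_natCast _

theorem exists_net (B : Finset V) {t R : ℕ} (ht : 0 < t) (hB : B.card ≤ t) (a : V → ℝ)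
    (h0 : ∀ u ∉ B, a u = 0) (hR : ∑ u, |a u| ≤ R) :
    ∃ h ∈ net B t R, ∑ u, |a u - (h u : ℝ) / t| ≤ B.card / t := by
  have ht' : (0 : ℝ) < t := by exact_mod_cast ht
  have h1 : ∑ u, |a u - (⌊t * a u⌋ : ℝ) / t| ≤ B.card / t := by
    have : ∀ u, |a u - (⌊t * a u⌋ : ℝ) / t| ≤ if u ∈ B then 1 / (t : ℝ) else 0 := by
      intro u
      split_ifs with hu
      · rw [show a u - (⌊t * a u⌋ : ℝ) / t = (t * a u - ⌊t * a u⌋) / t by field_simp, abs_div,
          abs_of_pos ht']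
        gcongr
        have := Int.floor_le (t * a u)
        have := Int.lt_floor_add_one (t * a u)
        rw [abs_le]; constructor <;> linarith
      · simp [h0 u hu]
    refine (sum_le_sum fun u _ => this u).trans (le_of_eq ?_)
    simp [div_eq_mul_inv]
  refine ⟨fun u => ⌊t * a u⌋, mem_filter.2 ⟨Fintype.mem_piFinset.2 fun u => ?_, ?_⟩, h1⟩
  · split_ifs with hu
    · have h2 : |a u| ≤ R := (single_le_sum (f := fun u => |a u|) (fun _ _ => abs_nonneg _)
        (mem_univ u)).trans hR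
      rw [abs_le] at h2
      rw [mem_Icc, Int.le_floor, Int.floor_le_iff]
      push_cast
      constructor <;> nlinarith [h2.1, h2.2]
    · simp [h0 u hu]
  · have h2 : ∑ u, |(⌊t * a u⌋ : ℝ) / t| ≤ ∑ u, (|a u| + |a u - (⌊t * a u⌋ : ℝ) / t|) :=
      sum_le_sum fun u _ => by
        have := abs_sub (a u) (a u - (⌊t * a u⌋ : ℝ) / t)
        rwa [sub_sub_cancel] at this
    rw [sum_add_distrib] at h2
    have h3 : (B.card : ℝ) / t ≤ 1 := div_le_one_of_le₀ (by exact_mod_cast hB) ht'.le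
    linarith

variable {X : SimpleGraph V} [DecidableRel X.Adj] {G : Type} [Group G] [Fintype G]
  [MulAction G V] {b : V → V → ℝ} {lam : V → ℝ} {β : ℝ}

/-- The eigenspace index set. -/
def esp (lam : V → ℝ) (μ : ℝ) : Finset V := univ.filter fun j => lam j = μ

variable (G) in
/-- The normalised projector kernel. -/
def Kp (b : V → V → ℝ) (I : Finset V) (u v : V) : ℝ := (∑ j ∈ I, kc G b j u v) / I.card

theorem proj_inv (E : Eb X G b lam β) (μ : ℝ) (a : G) (x z : V) :
    ∑ j ∈ esp lam μ, b j (a • x) * b j (a • z) = ∑ j ∈ esp lam μ, b j x * b j z := by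
  have hU : ∀ j k, lam j ≠ lam k → ∑ y, b j (a • y) * b k y = 0 := by
    intro j k h
    have := adj_symm (X := X) (fun y => b j (a • y)) (b k)
    simp only [sum_nbr E (b j), E.eig] at this
    have e1 : ∑ y, lam j * b j (a • y) * b k y = lam j * ∑ y, b j (a • y) * b k y := by
      rw [mul_sum]; exact sum_congr rfl fun _ _ => by ring
    have e2 : ∑ y, b j (a • y) * (lam k * b k y) = lam k * ∑ y, b j (a • y) * b k y := by
      rw [mul_sum]; exact sum_congr rfl fun _ _ => by ring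
    rw [e1, e2] at this
    exact (mul_eq_mul_right_iff.1 this).resolve_left h
  have hz : ∀ j, b j (a • z) = ∑ k, (∑ y, b j (a • y) * b k y) * b k z := by
    intro j
    simp only [sum_mul, mul_assoc]
    rw [sum_comm]
    simp [← mul_sum, E.comp]
  have hx : ∀ k, ∑ j, b j (a • x) * ∑ y, b j (a • y) * b k y = b k x := by
    intro k
    simp only [mul_sum, ← mul_assoc]
    rw [sum_comm]
    simp [← sum_mul, E.comp]
  calc ∑ j ∈ esp lam μ, b j (a • x) * b j (a • z)
      = ∑ k, (∑ j ∈ esp lam μ, b j (a • x) * ∑ y, b j (a • y) * b k y) * b k z := by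
        simp only [sum_mul (s := esp lam μ)]
        rw [sum_comm]
        refine sum_congr rfl fun j _ => ?_
        rw [hz j, mul_sum]
        exact sum_congr rfl fun _ _ => by ring
    _ = _ := by
        rw [esp, sum_filter (fun j => lam j = μ) (fun j => b j x * b j z)]
        refine sum_congr rfl fun k _ => ?_
        split_ifs with hk
        · rw [← hx k, sum_filter]
          congr 1
          refine sum_congr rfl fun j _ => ?_
          split_ifs with hj
          · rfl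
          · rw [hU j k (by rw [hk]; exact hj), mul_zero]
        · rw [sum_eq_zero, zero_mul]
          intro j hj
          rw [hU j k (by rw [(mem_filter.1 hj).2]; exact Ne.symm hk), mul_zero]

theorem proj_kc (E : Eb X G b lam β) (μ : ℝ) (x z : V) :
    Fintype.card V * ∑ j ∈ esp lam μ, b j x * b j z = ∑ j ∈ esp lam μ, kc G b j x z := by
  have hG : (0 : ℝ) < Fintype.card G := by exact_mod_cast Fintype.card_pos
  simp only [kc]
  rw [← mul_sum, sum_comm]
  simp only [proj_inv E, sum_const, card_univ, nsmul_eq_mul]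
  field_simp

omit [DecidableEq V] in
theorem Kp_dev {I : Finset V} (hI : I.Nonempty) (u v : V) (c : ℝ) :
    I.card * (Kp G b I u v - c) ^ 2 ≤ ∑ j ∈ I, (kc G b j u v - c) ^ 2 := by
  have hm : (0 : ℝ) < I.card := by exact_mod_cast hI.card_pos
  have h4 := sq_sum_le_card_mul_sum_sq (s := I) (f := fun i => kc G b i u v - c)
  rw [sum_sub_distrib, sum_const, nsmul_eq_mul] at h4
  refine le_of_mul_le_mul_left (le_trans (le_of_eq ?_) h4) hm
  rw [Kp]
  field_simp

theorem gram (E : Eb X G b lam β) (μ : ℝ) (hμ : (esp lam μ).Nonempty) {κ : Type} (P : Finset κ)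
    (g : κ → V) : (∑ p ∈ P, Kp G b (esp lam μ) (g p) (g p)) ^ 2 ≤
      ∑ p ∈ P, ∑ r ∈ P, ∑ j ∈ esp lam μ, kc G b j (g p) (g r) ^ 2 := by
  set I := esp lam μ
  have hm : (0 : ℝ) < I.card := by exact_mod_cast hμ.card_pos
  set n : ℝ := (Fintype.card V : ℝ)
  have h1 : n * ∑ j ∈ I, ∑ p ∈ P, b j (g p) * b j (g p) =
      (∑ p ∈ P, Kp G b I (g p) (g p)) * I.card := by
    rw [sum_comm, mul_sum, sum_mul]
    refine sum_congr rfl fun p _ => ?_
    rw [proj_kc E, Kp, div_mul_cancel₀ _ hm.ne']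
  have h2 := sq_sum_le_card_mul_sum_sq (s := I) (f := fun j => ∑ p ∈ P, b j (g p) * b j (g p))
  have h3 : ∑ j ∈ I, (∑ p ∈ P, b j (g p) * b j (g p)) ^ 2 ≤
      ∑ j ∈ I, ∑ k ∈ I, (∑ p ∈ P, b j (g p) * b k (g p)) ^ 2 :=
    sum_le_sum fun j hj => single_le_sum
      (f := fun k => (∑ p ∈ P, b j (g p) * b k (g p)) ^ 2) (fun _ _ => sq_nonneg _) hj
  have h4 : ∑ j ∈ I, ∑ k ∈ I, (∑ p ∈ P, b j (g p) * b k (g p)) ^ 2 =
      ∑ p ∈ P, ∑ r ∈ P, (∑ j ∈ I, b j (g p) * b j (g r)) ^ 2 := by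
    simp only [sq, sum_mul_sum]
    rw [sum_congr rfl fun j _ => sum_comm, sum_comm]
    refine sum_congr rfl fun p _ => ?_
    rw [sum_congr rfl fun j _ => sum_comm, sum_comm]
    exact sum_congr rfl fun _ _ => sum_congr rfl fun _ _ => sum_congr rfl fun _ _ => by ring
  have h5 : n ^ 2 * ∑ p ∈ P, ∑ r ∈ P, (∑ j ∈ I, b j (g p) * b j (g r)) ^ 2 ≤
      I.card * ∑ p ∈ P, ∑ r ∈ P, ∑ j ∈ I, kc G b j (g p) (g r) ^ 2 := by
    simp only [mul_sum (s := P)]
    refine sum_le_sum fun p _ => sum_le_sum fun r _ => ?_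
    rw [← mul_pow, proj_kc E]
    exact sq_sum_le_card_mul_sum_sq
  rw [h4] at h3
  have h6 : ((∑ p ∈ P, Kp G b I (g p) (g p)) * I.card) ^ 2 ≤ I.card * (I.card *
      ∑ p ∈ P, ∑ r ∈ P, ∑ j ∈ I, kc G b j (g p) (g r) ^ 2) := by
    rw [← h1, mul_pow]
    calc _ ≤ n ^ 2 * (I.card * _) := mul_le_mul_of_nonneg_left
          (h2.trans (mul_le_mul_of_nonneg_left h3 hm.le)) (by positivity)
      _ = I.card * (n ^ 2 * _) := by ring
      _ ≤ _ := mul_le_mul_of_nonneg_left h5 hm.le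
  rw [← mul_assoc, mul_pow, mul_comm, ← sq] at h6
  exact le_of_mul_le_mul_left h6 (by positivity)

omit [DecidableEq V] in
theorem sum_esp (lam : V → ℝ) (f : V → ℝ) :
    ∑ μ ∈ univ.image lam, ∑ j ∈ esp lam μ, f j = ∑ j, f j :=
  sum_fiberwise_of_maps_to (fun _ h => mem_image_of_mem lam h) f

theorem few (E : Eb X G b lam β) {κ : Type} (P : Finset κ) (hP : P.Nonempty) (g : κ → V)
    {c δ : ℝ} (h1 : ∀ p ∈ P, ∑ r ∈ P, ∑ j, kc G b j (g p) (g r) ^ 2 ≤
      (c + P.card * δ) * Fintype.card V)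
    (h2 : ∀ u, ∑ j, (kc G b j u u - 1) ^ 2 ≤ δ * Fintype.card V) :
    ((univ.image lam).card : ℝ) ≤ (2 * c / P.card + 4 * δ) * Fintype.card V := by
  have hM : (0 : ℝ) < P.card := by exact_mod_cast hP.card_pos
  have h3 : ∀ μ ∈ univ.image lam, (P.card : ℝ) ^ 2 ≤
      2 * ∑ p ∈ P, ∑ r ∈ P, ∑ j ∈ esp lam μ, kc G b j (g p) (g r) ^ 2 +
        2 * (P.card * ∑ p ∈ P, ∑ j ∈ esp lam μ, (kc G b j (g p) (g p) - 1) ^ 2) := by
    intro μ hμ
    have hne : (esp lam μ).Nonempty := by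
      obtain ⟨j, _, rfl⟩ := mem_image.1 hμ
      exact ⟨j, by simp [esp]⟩
    have hm : (1 : ℝ) ≤ (esp lam μ).card := by exact_mod_cast hne.card_pos
    have a1 := gram E μ hne P g
    have a2 := sq_sum_le_card_mul_sum_sq (s := P)
      (f := fun p => Kp G b (esp lam μ) (g p) (g p) - 1)
    have a3 : ∑ p ∈ P, (Kp G b (esp lam μ) (g p) (g p) - 1) ^ 2 ≤
        ∑ p ∈ P, ∑ j ∈ esp lam μ, (kc G b j (g p) (g p) - 1) ^ 2 :=
      sum_le_sum fun p _ => (le_mul_of_one_le_left (sq_nonneg _) hm).trans (Kp_dev hne _ _ _)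
    have a4 := a2.trans (mul_le_mul_of_nonneg_left a3 hM.le)
    rw [sum_sub_distrib, sum_const, nsmul_eq_mul, mul_one] at a4
    nlinarith [sq_nonneg (2 * ∑ p ∈ P, Kp G b (esp lam μ) (g p) (g p) - P.card)]
  have h4 := sum_le_sum h3
  rw [sum_add_distrib, ← mul_sum, ← mul_sum, ← mul_sum, sum_comm, sum_comm (s := univ.image lam),
    sum_congr rfl fun p _ => sum_comm] at h4
  simp only [sum_esp, sum_const, nsmul_eq_mul] at h4
  have h5 := sum_le_sum h1
  have h6 := sum_le_sum (s := P) fun p _ => h2 (g p)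
  rw [sum_const, nsmul_eq_mul] at h5 h6
  have h7 := mul_le_mul_of_nonneg_left h6 hM.le
  refine le_of_mul_le_mul_right (h4.trans ((add_le_add (mul_le_mul_of_nonneg_left h5 two_pos.le)
    (mul_le_mul_of_nonneg_left h7 two_pos.le)).trans (le_of_eq ?_))) (pow_pos hM 2)
  field_simp
  ring

end

end Pool.Agent.GraphBerry
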