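import Mathlib

/-! Non-backtracking paths as lists of oriented edges. -/

namespace Pool.Agent.GraphBerry

open Finset

noncomputable section

variable {V : Type} [Inhabited V]

/-- First oriented edge. -/
def hd (w : List (V × V)) : V × V := w.head?.getD default

/-- Last oriented edge. -/
def la (w : List (V × V)) : V × V := w.getLast?.getD default

@[simp] theorem hd_cons (e : V × V) (w : List (V × V)) : hd (e :: w) = e := rfl

@[simp] theorem la_concat (e : V × V) (w : List (V × V)) : la (w ++ [e]) = e := by simp [la]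

@[simp] theorem la_single (e : V × V) : la [e] = e := rfl

theorem hd_append {w : List (V × V)} (h : w ≠ []) (v : List (V × V)) : hd (w ++ v) = hd w := by
  obtain ⟨a, w, rfl⟩ := List.exists_cons_of_ne_nil h
  rfl

theorem la_append {w : List (V × V)} (h : w ≠ []) (v : List (V × V)) : la (v ++ w) = la w := by
  obtain ⟨w, a, rfl⟩ := (List.eq_nil_or_concat' w).resolve_left h
  rw [← List.append_assoc, la_concat, la_concat]

theorem la_cons {w : List (V × V)} (h : w ≠ []) (e : V × V) : la (e :: w) = la w :=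
  la_append h [e]

theorem hd_mem {w : List (V × V)} (h : w ≠ []) : hd w ∈ w := by
  obtain ⟨a, w, rfl⟩ := List.exists_cons_of_ne_nil h
  simp

theorem la_mem {w : List (V × V)} (h : w ≠ []) : la w ∈ w := by
  obtain ⟨w, a, rfl⟩ := (List.eq_nil_or_concat' w).resolve_left h
  simp

/-- A non-backtracking path. -/
def Red (X : SimpleGraph V) (w : List (V × V)) : Prop :=
  (∀ e ∈ w, X.Adj e.1 e.2) ∧ w.IsChain (fun e f => e.2 = f.1 ∧ e.1 ≠ f.2)

omit [Inhabited V] in
theorem Red.left {X : SimpleGraph V} {v w : List (V × V)} (h : Red X (v ++ w)) : Red X v :=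
  ⟨fun s hs => h.1 s (List.mem_append_left _ hs), (List.isChain_append.1 h.2).1⟩

omit [Inhabited V] in
theorem Red.right {X : SimpleGraph V} {v w : List (V × V)} (h : Red X (v ++ w)) : Red X w :=
  ⟨fun s hs => h.1 s (List.mem_append_right _ hs), (List.isChain_append.1 h.2).2.1⟩

omit [Inhabited V] in
theorem red_single {X : SimpleGraph V} {a b : V} (h : X.Adj a b) : Red X [(a, b)] :=
  ⟨by simpa, List.isChain_singleton _⟩

theorem red_append {X : SimpleGraph V} {v w : List (V × V)} (hv : v ≠ []) (hw : w ≠ []) :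
    Red X (v ++ w) ↔ Red X v ∧ Red X w ∧ (la v).2 = (hd w).1 ∧ (la v).1 ≠ (hd w).2 := by
  obtain ⟨v, a, rfl⟩ := (List.eq_nil_or_concat' v).resolve_left hv
  obtain ⟨b, w, rfl⟩ := List.exists_cons_of_ne_nil hw
  refine ⟨fun h => ⟨h.left, h.right, ?_⟩, fun ⟨h1, h2, h3⟩ => ⟨?_, ?_⟩⟩
  · simpa using (List.isChain_append.1 h.2).2.2
  · intro e he
    rcases List.mem_append.1 he with he | he
    · exact h1.1 e he
    · exact h2.1 e he
  · exact List.isChain_append.2 ⟨h1.2, h2.2, by simpa using h3⟩

/-- Short non-backtracking paths are determined by their ends. -/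
def Inj (X : SimpleGraph V) (ρ : ℕ) : Prop :=
  ∀ u v : List (V × V), Red X u → Red X v → u ≠ [] → v ≠ [] → u.length ≤ ρ → v.length ≤ ρ →
    (hd u).1 = (hd v).1 → (la u).2 = (la v).2 → u = v

/-- All paths of `U` have length `l` and the edge `x` at place `i`. -/
def Good (X : SimpleGraph V) (l i : ℕ) (x : V × V) (U : Finset (List (V × V))) : Prop :=
  ∀ v ∈ U, Red X v ∧ v.length = l ∧ v[i]? = some x

omit [Inhabited V] in
theorem Good.ne {X : SimpleGraph V} {l i : ℕ} {x : V × V} {U : Finset (List (V × V))}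
    (h : Good X l i x U) {v : List (V × V)} (hv : v ∈ U) : v ≠ [] := by
  rintro rfl
  simpa using (h _ hv).2.2

variable [Fintype V] [DecidableEq V] (X : SimpleGraph V) [DecidableRel X.Adj]

/-- Vertices that extend `v` on the left. -/
def okL (v : List (V × V)) : Finset V := (X.neighborFinset (hd v).1).erase (hd v).2

/-- Vertices that extend `v` on the right. -/
def okR (v : List (V × V)) : Finset V := (X.neighborFinset (la v).2).erase (la v).1

/-- One-step left extensions. -/
def XL (U : Finset (List (V × V))) : Finset (List (V × V)) :=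
  (U.sigma (fun v => okL X v)).image (fun p => (p.2, (hd p.1).1) :: p.1)

/-- One-step right extensions. -/
def XR (U : Finset (List (V × V))) : Finset (List (V × V)) :=
  (U.sigma (fun v => okR X v)).image (fun p => p.1 ++ [((la p.1).2, p.2)])

variable {X}

theorem sum_XL {W : Type} [AddCommMonoid W] (U : Finset (List (V × V))) (f : List (V × V) → W) :
    ∑ v ∈ XL X U, f v = ∑ v ∈ U, ∑ t ∈ okL X v, f ((t, (hd v).1) :: v) := by
  rw [XL, sum_image, sum_sigma]
  rintro ⟨v, t⟩ _ ⟨v', t'⟩ _ h
  simp only [List.cons.injEq, Prod.mk.injEq] at h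
  obtain ⟨⟨rfl, -⟩, rfl⟩ := h
  rfl

theorem sum_XR {W : Type} [AddCommMonoid W] (U : Finset (List (V × V))) (f : List (V × V) → W) :
    ∑ v ∈ XR X U, f v = ∑ v ∈ U, ∑ t ∈ okR X v, f (v ++ [((la v).2, t)]) := by
  rw [XR, sum_image, sum_sigma]
  rintro ⟨v, t⟩ _ ⟨v', t'⟩ _ h
  have h' := List.append_inj' h rfl
  simp only [List.cons.injEq, and_true, Prod.mk.injEq] at h'
  obtain ⟨rfl, -, rfl⟩ := h'
  rfl

theorem red_cons {v : List (V × V)} (hv : Red X v) (h0 : v ≠ []) {t : V} (ht : t ∈ okL X v) :
    Red X ((t, (hd v).1) :: v) := by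
  rw [okL, mem_erase, SimpleGraph.mem_neighborFinset] at ht
  exact (red_append (v := [(t, (hd v).1)]) (by simp) h0).2 ⟨red_single ht.2.symm, hv, rfl, ht.1⟩

theorem red_concat {v : List (V × V)} (hv : Red X v) (h0 : v ≠ []) {t : V} (ht : t ∈ okR X v) :
    Red X (v ++ [((la v).2, t)]) := by
  rw [okR, mem_erase, SimpleGraph.mem_neighborFinset] at ht
  exact (red_append h0 (by simp)).2 ⟨hv, red_single ht.2, rfl, ht.1.symm⟩

theorem Good.xl {l i : ℕ} {x : V × V} {U : Finset (List (V × V))} (h : Good X l i x U) :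
    Good X (l + 1) (i + 1) x (XL X U) := by
  intro v hv
  simp only [XL, mem_image, mem_sigma] at hv
  obtain ⟨⟨u, t⟩, ⟨hu, ht⟩, rfl⟩ := hv
  exact ⟨red_cons (h u hu).1 (h.ne hu) ht, by simp [(h u hu).2.1], by simpa using (h u hu).2.2⟩

theorem Good.xr {l i : ℕ} {x : V × V} {U : Finset (List (V × V))} (h : Good X l i x U) :
    Good X (l + 1) i x (XR X U) := by
  intro v hv
  simp only [XR, mem_image, mem_sigma] at hv
  obtain ⟨⟨u, t⟩, ⟨hu, ht⟩, rfl⟩ := hv
  refine ⟨red_concat (h u hu).1 (h.ne hu) ht, by simp [(h u hu).2.1], ?_⟩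
  have := (h u hu).2.2
  rw [List.getElem?_append_left (List.getElem?_eq_some_iff.1 this).1, this]

omit [DecidableEq V] in
theorem hd_nbr {v : List (V × V)} (hv : Red X v) (h0 : v ≠ []) :
    (hd v).2 ∈ X.neighborFinset (hd v).1 :=
  (SimpleGraph.mem_neighborFinset _ _ _).2 (hv.1 _ (hd_mem h0))

omit [DecidableEq V] in
theorem la_nbr {v : List (V × V)} (hv : Red X v) (h0 : v ≠ []) :
    (la v).1 ∈ X.neighborFinset (la v).2 :=
  (SimpleGraph.mem_neighborFinset _ _ _).2 (hv.1 _ (la_mem h0)).symm

variable {q : ℕ} (hq : X.IsRegularOfDegree (q + 1))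
include hq

theorem card_okL {v : List (V × V)} (hv : Red X v) (h0 : v ≠ []) : (okL X v).card = q := by
  rw [okL, card_erase_of_mem (hd_nbr hv h0), SimpleGraph.card_neighborFinset_eq_degree, hq]; rfl

theorem card_okR {v : List (V × V)} (hv : Red X v) (h0 : v ≠ []) : (okR X v).card = q := by
  rw [okR, card_erase_of_mem (la_nbr hv h0), SimpleGraph.card_neighborFinset_eq_degree, hq]; rfl

theorem card_XL {l i : ℕ} {x : V × V} {U : Finset (List (V × V))} (h : Good X l i x U) :
    (XL X U).card = q * U.card := by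
  have := sum_XL (X := X) U (fun _ => (1 : ℕ))
  simp only [sum_const, smul_eq_mul, mul_one] at this
  rw [this, sum_congr rfl (fun v hv => card_okL hq (h v hv).1 (h.ne hv))]
  simp [mul_comm]

theorem card_XR {l i : ℕ} {x : V × V} {U : Finset (List (V × V))} (h : Good X l i x U) :
    (XR X U).card = q * U.card := by
  have := sum_XR (X := X) U (fun _ => (1 : ℕ))
  simp only [sum_const, smul_eq_mul, mul_one] at this
  rw [this, sum_congr rfl (fun v hv => card_okR hq (h v hv).1 (h.ne hv))]
  simp [mul_comm]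

omit hq

variable (X) in
/-- Two-sided extensions. -/
def Fam (w : List (V × V)) : ℕ → Finset (List (V × V))
  | 0 => {w}
  | j + 1 => XL X (XR X (Fam w j))

variable (X) in
/-- Right extensions only. -/
def FamR (w : List (V × V)) : ℕ → Finset (List (V × V))
  | 0 => {w}
  | j + 1 => XR X (FamR w j)

omit [Fintype V] [DecidableEq V] [DecidableRel X.Adj] in
theorem good_single {w : List (V × V)} (hw : Red X w) (h0 : w ≠ []) :
    Good X w.length 0 (hd w) {w} := by
  intro v hv
  rw [mem_singleton.1 hv]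
  obtain ⟨a, w, rfl⟩ := List.exists_cons_of_ne_nil h0
  exact ⟨hw, rfl, rfl⟩

theorem good_Fam {w : List (V × V)} (hw : Red X w) (h0 : w ≠ []) (j : ℕ) :
    Good X (w.length + 2 * j) j (hd w) (Fam X w j) := by
  induction j with
  | zero => exact good_single hw h0
  | succ j ih => exact ih.xr.xl

theorem good_FamR {w : List (V × V)} (hw : Red X w) (h0 : w ≠ []) (j : ℕ) :
    Good X (w.length + j) 0 (hd w) (FamR X w j) := by
  induction j with
  | zero => exact good_single hw h0
  | succ j ih => exact ih.xr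

include hq

theorem card_Fam {w : List (V × V)} (hw : Red X w) (h0 : w ≠ []) (j : ℕ) :
    (Fam X w j).card = q ^ (2 * j) := by
  induction j with
  | zero => simp [Fam]
  | succ j ih =>
    rw [Fam, card_XL hq (good_Fam hw h0 j).xr, card_XR hq (good_Fam hw h0 j), ih]
    ring

theorem card_FamR {w : List (V × V)} (hw : Red X w) (h0 : w ≠ []) (j : ℕ) :
    (FamR X w j).card = q ^ j := by
  induction j with
  | zero => simp [FamR]
  | succ j ih =>
    rw [FamR, card_XR hq (good_FamR hw h0 j), ih]
    ring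

end

end Pool.Agent.GraphBerry
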