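import Pool.Agent.P.MP_6b977f_mp.GB.Slide
import Pool.Agent.P.MP_6b977f_mp.GB.Graph
import Pool.Agent.P.MP_6b977f_mp.GB.Defs

/-! Eigenbases of a graph with a group of automorphisms: correlations. -/

namespace Pool.Agent.GraphBerry

open Finset

noncomputable section

variable {V : Type} [Fintype V] [DecidableEq V] {X : SimpleGraph V} [DecidableRel X.Adj]
  {G : Type} [Group G] [Fintype G] [MulAction G V]

/-- An orthonormal eigenbasis and a group of automorphisms with large orbits. -/
structure Eb (X : SimpleGraph V) [DecidableRel X.Adj] (G : Type) [Group G] [Fintype G]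
    [MulAction G V] (b : V → V → ℝ) (lam : V → ℝ) (β : ℝ) : Prop where
  orth : ∀ j k, ∑ x, b j x * b k x = if j = k then 1 else 0
  comp : ∀ x y, ∑ j, b j x * b j y = if x = y then 1 else 0
  eig : ∀ j x, ∑ y ∈ X.neighborFinset x, b j y = lam j * b j x
  act : ∀ (a : G) x y, X.Adj x y → X.Adj (a • x) (a • y)
  fib : ∀ u x : V, (Fintype.card V : ℝ) * (univ.filter fun a : G => a • u = x).card ≤
    β * Fintype.card G
  one : 1 ≤ β

variable (G) in
/-- The correlation function of a basis vector. -/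
def kc (b : V → V → ℝ) (j u v : V) : ℝ :=
  Fintype.card V / Fintype.card G * ∑ a : G, b j (a • u) * b j (a • v)

variable {b : V → V → ℝ} {lam : V → ℝ} {β : ℝ}

omit [DecidableEq V] [Fintype G] in
theorem sum_smul' (f : V → ℝ) (a : G) : ∑ x, f (a • x) = ∑ x, f x :=
  Fintype.sum_equiv (MulAction.toPerm a) _ _ fun _ => rfl

theorem sum_nbr (E : Eb X G b lam β) (f : V → ℝ) (a : G) (x : V) :
    ∑ y ∈ X.neighborFinset x, f (a • y) = ∑ y ∈ X.neighborFinset (a • x), f y := by
  refine sum_nbij' (fun y => a • y) (fun y => a⁻¹ • y) (fun y hy => ?_) (fun y hy => ?_)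
    (by simp) (by simp) (by simp)
  · rw [SimpleGraph.mem_neighborFinset] at hy ⊢
    exact E.act a _ _ hy
  · rw [SimpleGraph.mem_neighborFinset] at hy ⊢
    simpa using E.act a⁻¹ _ _ hy

omit [DecidableEq V] in
theorem adj_symm (f h : V → ℝ) : ∑ x, (∑ y ∈ X.neighborFinset x, f y) * h x =
    ∑ x, f x * ∑ y ∈ X.neighborFinset x, h y := by
  simp only [sum_mul, mul_sum]
  exact sum_comm' fun x y => by simp [X.adj_comm]

theorem kc_right (E : Eb X G b lam β) (j u v : V) :
    ∑ t ∈ X.neighborFinset v, kc G b j u t = lam j * kc G b j u v := by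
  simp only [kc]
  rw [← mul_sum, sum_comm, mul_left_comm, mul_sum _ _ (lam j)]
  congr 1
  refine sum_congr rfl fun a _ => ?_
  rw [← mul_sum, sum_nbr E (b j), E.eig]
  ring

omit [DecidableEq V] in
theorem kc_comm (j u v : V) : kc G b j u v = kc G b j v u := by simp only [kc, mul_comm]

theorem kc_left (E : Eb X G b lam β) (j u v : V) :
    ∑ t ∈ X.neighborFinset u, kc G b j t v = lam j * kc G b j u v := by
  simp only [kc_comm j _ v, kc_right E]

omit [DecidableEq V] in
theorem kc_smul (j u v : V) (c : G) : kc G b j (c • u) (c • v) = kc G b j u v := by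
  simp only [kc, ← mul_smul]
  rw [Fintype.sum_equiv (Equiv.mulRight c) (fun a => b j ((a * c) • u) * b j ((a * c) • v))
    (fun a => b j (a • u) * b j (a • v)) fun _ => rfl]

theorem sum_sq (E : Eb X G b lam β) (j : V) : ∑ x, b j x ^ 2 = 1 := by
  simpa [sq] using E.orth j j

theorem avg_le (E : Eb X G b lam β) {f : V → ℝ} (hf : ∀ x, 0 ≤ f x) (u : V) :
    Fintype.card V / Fintype.card G * ∑ a : G, f (a • u) ≤ β * ∑ x, f x := by
  have hG : (0 : ℝ) < Fintype.card G := by exact_mod_cast Fintype.card_pos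
  rw [← sum_fiberwise (s := univ) (g := fun a : G => a • u), mul_sum, mul_sum]
  refine sum_le_sum fun x _ => ?_
  rw [sum_congr rfl (g := fun _ => f x) fun a ha => by rw [(mem_filter.1 ha).2], sum_const,
    nsmul_eq_mul, ← mul_assoc]
  refine mul_le_mul_of_nonneg_right ?_ (hf x)
  rw [div_mul_eq_mul_div, div_le_iff₀ hG]
  exact E.fib u x

theorem abs_kc (E : Eb X G b lam β) (j u v : V) : |kc G b j u v| ≤ β := by
  have h1 := avg_le E (fun x => sq_nonneg (b j x)) u
  have h2 := avg_le E (fun x => sq_nonneg (b j x)) v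
  rw [sum_sq E] at h1 h2
  rw [kc, abs_mul, abs_of_nonneg (by positivity)]
  have : |∑ a : G, b j (a • u) * b j (a • v)| ≤
      ∑ a : G, (b j (a • u) ^ 2 + b j (a • v) ^ 2) / 2 :=
    (abs_sum_le_sum_abs _ _).trans (sum_le_sum fun a _ => by
      rw [abs_le]; constructor <;> nlinarith [sq_nonneg (b j (a • u) + b j (a • v)),
        sq_nonneg (b j (a • u) - b j (a • v))])
  rw [← sum_div, sum_add_distrib] at this
  have := mul_le_mul_of_nonneg_left this
    (show (0 : ℝ) ≤ Fintype.card V / Fintype.card G by positivity)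
  linarith

theorem sum_kc (E : Eb X G b lam β) (j : V) : ∑ u, kc G b j u u = Fintype.card V := by
  have hG : (0 : ℝ) < Fintype.card G := by exact_mod_cast Fintype.card_pos
  simp only [kc]
  rw [← mul_sum, sum_comm]
  simp only [← sq, sum_smul' (fun x => b j x ^ 2), sum_sq E]
  simp [hG.ne']

theorem abs_lam (E : Eb X G b lam β) {d : ℕ} (hd : X.IsRegularOfDegree d) (j : V) :
    |lam j| ≤ d := by
  have h1 : lam j = ∑ x, ∑ y ∈ X.neighborFinset x, b j y * b j x := by
    simp only [← sum_mul, E.eig, mul_assoc, ← mul_sum, ← sq, sum_sq E, mul_one]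
  have h2 := adj_symm (X := X) (fun x => b j x ^ 2) (fun _ => 1)
  have hc : ∀ x, (X.neighborFinset x).card = d := hd
  simp only [mul_one, sum_const, hc, nsmul_eq_mul, ← sum_mul, sum_sq E, one_mul] at h2
  have h3 : ∑ x, ∑ y ∈ X.neighborFinset x, b j x ^ 2 = d := by
    simp only [sum_const, hc, nsmul_eq_mul, ← mul_sum, sum_sq E, mul_one]
  have h4 : |lam j| ≤ ∑ x, ∑ y ∈ X.neighborFinset x, (b j y ^ 2 + b j x ^ 2) / 2 := by
    rw [h1]
    refine (abs_sum_le_sum_abs _ _).trans (sum_le_sum fun x _ =>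
      (abs_sum_le_sum_abs _ _).trans (sum_le_sum fun y _ => ?_))
    rw [abs_le]
    constructor <;> nlinarith [sq_nonneg (b j y + b j x), sq_nonneg (b j y - b j x)]
  simp only [← sum_div, sum_add_distrib, h2, h3] at h4
  linarith

theorem hs_bound (E : Eb X G b lam β) {κ : Type} (T : Finset κ) (p : κ → V × V) (e : κ → ℝ)
    {F : ℝ} (hF : ∀ z, ((T.filter fun i => p i = z).card : ℝ) ≤ F) :
    ∑ j, (∑ i ∈ T, e i * (b j (p i).1 * b j (p i).2)) ^ 2 ≤ F * ∑ i ∈ T, e i ^ 2 := by
  set C : V × V → ℝ := fun z => ∑ i ∈ T.filter fun i => p i = z, e i with hC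
  have h1 : ∀ j, ∑ i ∈ T, e i * (b j (p i).1 * b j (p i).2) =
      ∑ x, b j x * ∑ y, C (x, y) * b j y := by
    intro j
    rw [← sum_fiberwise (s := T) (g := p), Fintype.sum_prod_type]
    refine sum_congr rfl fun x _ => ?_
    rw [mul_sum]
    refine sum_congr rfl fun y _ => ?_
    rw [hC, sum_mul, mul_sum]
    exact sum_congr rfl fun i hi => by rw [(mem_filter.1 hi).2]; ring
  have h2 : ∀ j, (∑ x, b j x * ∑ y, C (x, y) * b j y) ^ 2 ≤ ∑ x, (∑ y, C (x, y) * b j y) ^ 2 := by
    intro j
    have h := sum_mul_sq_le_sq_mul_sq univ (b j) (fun x => ∑ y, C (x, y) * b j y)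
    rwa [sum_sq E, one_mul] at h
  have h3 : ∀ x, ∑ j, (∑ y, C (x, y) * b j y) ^ 2 = ∑ y, C (x, y) ^ 2 := by
    intro x
    simp only [sq, sum_mul_sum]
    rw [sum_comm]
    refine sum_congr rfl fun y _ => ?_
    rw [sum_comm, sum_congr rfl (g := fun z => C (x, y) * C (x, z) * if y = z then 1 else 0)]
    · simp
    · intro z _
      rw [← E.comp, mul_sum]
      exact sum_congr rfl fun _ _ => by ring
  simp only [h1]
  refine (sum_le_sum fun j _ => h2 j).trans ?_
  rw [sum_comm]
  simp only [h3]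
  rw [← Fintype.sum_prod_type (f := fun z => C z ^ 2), ← sum_fiberwise (s := T) (g := p), mul_sum]
  exact sum_le_sum fun z _ => sq_sum_le_card_mul_sum_sq.trans
    (mul_le_mul_of_nonneg_right (hF z) (by positivity))

variable (G) in
/-- The vector of correlations. -/
def kv (b : V → V → ℝ) (u v : V) : EuclideanSpace ℝ V := WithLp.toLp 2 fun j => kc G b j u v

/-- The diagonal operator of eigenvalues. -/
def dg (lam : V → ℝ) (v : EuclideanSpace ℝ V) : EuclideanSpace ℝ V :=
  WithLp.toLp 2 fun j => lam j * v j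

/-- The vector of spherical functions. -/
def sv (d : ℕ) (lam : V → ℝ) (l : ℕ) : EuclideanSpace ℝ V :=
  WithLp.toLp 2 fun j => sph d (lam j) l

variable [Inhabited V]

theorem corr (E : Eb X G b lam β) {q ρ : ℕ} (hq : X.IsRegularOfDegree (q + 1)) (h2 : 2 ≤ q)
    (hI : Inj X ρ) : Corr X q (kv G b) (dg lam) (β * Fintype.card V) ρ where
  reg := hq
  two := h2
  left u v := by ext j; simp [kv, dg, kc_left E]
  right u v := by ext j; simp [kv, dg, kc_right E]
  lip v w := by
    rw [← sq_le_sq₀ (norm_nonneg _) (by positivity), mul_pow, EuclideanSpace.real_norm_sq_eq,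
      EuclideanSpace.real_norm_sq_eq, mul_sum]
    refine sum_le_sum fun j _ => ?_
    have h := abs_lam E hq j
    push_cast at h
    have : lam j ^ 2 ≤ ((q : ℝ) + 1) ^ 2 := by
      rw [← sq_abs]; exact pow_le_pow_left₀ (abs_nonneg _) h 2
    simp only [dg, PiLp.sub_apply, ← mul_sub, mul_pow]
    exact mul_le_mul_of_nonneg_right this (sq_nonneg _)
  bessel J U l i x e hl hρ hU := by
    have hG : (0 : ℝ) < Fintype.card G := by exact_mod_cast Fintype.card_pos
    have hn : (0 : ℝ) < Fintype.card V := by exact_mod_cast Fintype.card_pos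
    have hB := hs_bound E ((J.sigma U) ×ˢ (univ : Finset G))
      (fun ω => (ω.2 • (hd ω.1.2).1, ω.2 • (la ω.1.2).2))
      (fun ω => e ω.1.1 * (Fintype.card V / Fintype.card G))
      (F := β * Fintype.card G / Fintype.card V) fun z => by
        rw [le_div_iff₀' hn]
        rcases ((((J.sigma U) ×ˢ (univ : Finset G)).filter fun ω =>
          (ω.2 • (hd ω.1.2).1, ω.2 • (la ω.1.2).2) = z)).eq_empty_or_nonempty with h | ⟨ω₀, h⟩
        · rw [h]; have := E.one; simp; positivity
        have key : ∀ ω ω' : ((_ : ℕ) × List (V × V)) × G, ω.1 ∈ J.sigma U → ω'.1 ∈ J.sigma U →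
            (ω.2 • (hd ω.1.2).1, ω.2 • (la ω.1.2).2) = z →
            (ω'.2 • (hd ω'.1.2).1, ω'.2 • (la ω'.1.2).2) = z → ω.1.1 = ω'.1.1 ∧
            (ω.1.2.map fun e => (ω.2 • e.1, ω.2 • e.2)) =
              ω'.1.2.map fun e => (ω'.2 • e.1, ω'.2 • e.2) := by
          rintro ⟨⟨j, w⟩, a⟩ ⟨⟨j', w'⟩, a'⟩ h1 h2 h3 h4
          simp only [mem_sigma] at h1 h2 h3 h4 ⊢
          have g1 := hU _ h1.1 _ h1.2
          have g2 := hU _ h2.1 _ h2.2
          have n1 := (hU _ h1.1).ne h1.2
          have n2 := (hU _ h2.1).ne h2.2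
          have h5 := Prod.mk.inj (h3.trans h4.symm)
          have := hI _ _ (red_smul E.act a g1.1) (red_smul E.act a' g2.1) (by simpa using n1)
            (by simpa using n2) (by simpa [g1.2.1] using hρ _ h1.1)
            (by simpa [g2.2.1] using hρ _ h2.1) (by rw [hd_map n1, hd_map n2]; exact h5.1)
            (by rw [la_map n1, la_map n2]; exact h5.2)
          refine ⟨hl ?_, this⟩
          simpa [g1.2.1, g2.2.1] using congrArg List.length this
        refine le_trans ?_ (E.fib x.1 (ω₀.2 • x.1))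
        gcongr
        simp only [mem_filter, mem_product, mem_univ, and_true] at h
        refine card_le_card_of_injOn (fun ω => ω.2) (fun ω hω => ?_) fun ω hω ω' hω' h' => ?_
        · simp only [coe_filter, mem_product, mem_univ, and_true, Set.mem_ofPred_eq,
            true_and] at hω ⊢
          obtain ⟨k1, k2⟩ := key ω ω₀ hω.1 h.1 hω.2 h.2
          have g1 := (hU _ (mem_sigma.1 hω.1).1 _ (mem_sigma.1 hω.1).2).2.2
          have g2 := (hU _ (mem_sigma.1 h.1).1 _ (mem_sigma.1 h.1).2).2.2
          have := congrArg (fun w : List (V × V) => w[i ω₀.1.1]?) k2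
          rw [k1] at g1
          simp only [List.getElem?_map, g1, g2, Option.map_some, Option.some.injEq,
            Prod.mk.injEq] at this
          exact this.1
        · simp only [coe_filter, mem_product, mem_univ, and_true, Set.mem_ofPred_eq] at hω hω' h'
          obtain ⟨k1, k2⟩ := key ω ω' hω.1 hω'.1 hω.2 hω'.2
          obtain ⟨⟨j, w⟩, a⟩ := ω
          obtain ⟨⟨j', w'⟩, a'⟩ := ω'
          simp only at k1 k2 h'
          subst k1 h'
          rw [List.map_injective_iff.2 (fun e f h => ?_) k2]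
          exact Prod.ext (MulAction.injective a (Prod.mk.inj h).1)
            (MulAction.injective a (Prod.mk.inj h).2)
    rw [EuclideanSpace.real_norm_sq_eq]
    simp only [sum_product, sum_sigma, sum_const, card_univ, nsmul_eq_mul] at hB
    convert hB using 1
    · refine sum_congr rfl fun j _ => ?_
      simp [val, kv, kc, mul_sum, mul_assoc]
    · rw [mul_sum, mul_sum]
      refine sum_congr rfl fun j _ => ?_
      field_simp

theorem radial (E : Eb X G b lam β) {q ρ N r : ℕ} (hq : X.IsRegularOfDegree (q + 1)) (h2 : 2 ≤ q)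
    (hI : Inj X ρ) (hN : 0 < N) (hr : ∀ u v, ∃ a : G, X.edist (a • u) v ≤ r) {u v : V}
    (h : X.Reachable u v) (hρ : X.dist u v + 1 + 2 * N ≤ ρ) :
    ∑ j, (kc G b j u v - sph (q + 1) (lam j) (X.dist u v)) ^ 2 ≤
      (5 ^ X.dist u v * ((2 * r + 1) * √(β * Fintype.card V * q / N))) ^ 2 ∧
    ∀ l, X.dist u v = l + 1 → ∑ j, kc G b j u v ^ 2 ≤
      (2 * (5 ^ (l + 1) * ((2 * r + 1) * √(β * Fintype.card V * q / N))) +
        √(β * Fintype.card V / q ^ l)) ^ 2 := by
  have hq0 : (q : ℝ) ≠ 0 := by positivity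
  have hn : (0 : ℝ) < Fintype.card V := by exact_mod_cast Fintype.card_pos
  have C := corr E hq h2 hI
  set s := √(β * Fintype.card V * q / N) with hs
  have hs0 : 0 ≤ s := Real.sqrt_nonneg _
  have hD : s ≤ (2 * r + 1) * s := le_mul_of_one_le_left hs0 (by linarith [Nat.cast_nonneg (α := ℝ) r])
  have h0 : ∀ u, ‖kv G b u u - sv (q + 1) lam 0‖ ≤ (2 * r + 1) * s := by
    intro u
    have hA := near_avg univ (kv G b u u) (fun v => kv G b v v) (δ := (2 * r + 1) * s)
      fun v _ => by
        obtain ⟨a, ha⟩ := hr u v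
        obtain ⟨p, hp⟩ := walk_of_edist ha
        have h3 := diag_close C hN (by omega) p
        have e : kv G b (a • u) (a • u) = kv G b u u := by ext j; simp [kv, kc_smul]
        have hp' : (p.length : ℝ) ≤ r := by exact_mod_cast hp
        rw [e, ← hs] at h3
        nlinarith
    have e : ∑ v, kv G b v v = (Fintype.card V : ℝ) • sv (q + 1) lam 0 := by
      ext j; simp [kv, sv, sph, sum_kc E]
    rw [e, card_univ, ← smul_sub, norm_smul, Real.norm_natCast] at hA
    exact le_of_mul_le_mul_left hA hn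
  have h1 : ((q : ℝ) + 1) • sv (q + 1) lam 1 = dg lam (sv (q + 1) lam 0) := by
    ext j; simp [sv, dg, sph]; field_simp
  have h3 : ∀ l, (q : ℝ) • sv (q + 1) lam (l + 2) =
      dg lam (sv (q + 1) lam (l + 1)) - sv (q + 1) lam l := by
    intro l; ext j; simp [sv, dg, sph]; field_simp
  by_cases huv : u = v
  · subst huv
    refine ⟨?_, fun l hl => by simp at hl⟩
    have := pow_le_pow_left₀ (norm_nonneg _) (h0 u) 2
    rw [EuclideanSpace.real_norm_sq_eq] at this
    simpa [kv, sv] using this
  obtain ⟨w, g1, g2, g3, rfl, rfl⟩ := red_of_reach h huv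
  obtain ⟨l, hl⟩ : ∃ l, w.length = l + 1 := Nat.exists_eq_add_one_of_ne_zero (by simpa using g2)
  rw [← g3, hl] at hρ ⊢
  refine ⟨?_, fun l' hl' => ?_⟩
  · have := (radial_close C hN hD _ h0 h1 h3 l w g1 hl (by omega)).2
    have := pow_le_pow_left₀ (norm_nonneg _) this 2
    rw [EuclideanSpace.real_norm_sq_eq] at this
    simpa [kv, sv, val] using this
  · obtain rfl : l = l' := by omega
    have := long_small C hN hD _ h0 h1 h3 l w g1 hl (by omega)
    have := pow_le_pow_left₀ (norm_nonneg _) this 2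
    rw [EuclideanSpace.real_norm_sq_eq] at this
    simpa [kv, val] using this

end

end Pool.Agent.GraphBerry
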