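import Pool.Agent.P.MP_6b977f_mp.GB.Paths

/-! The sliding estimate in an abstract normed space. -/

namespace Pool.Agent.GraphBerry

open Finset

noncomputable section

variable {V : Type} [Inhabited V] [Fintype V] [DecidableEq V] {W : Type} [NormedAddCommGroup W]
  [NormedSpace ℝ W]

/-- The value of a path. -/
def val (kk : V → V → W) (v : List (V × V)) : W := kk (hd v).1 (la v).2

/-- The one-step slide. -/
def slide (kk : V → V → W) (v : List (V × V)) : W := kk (hd v).1 (la v).1 - kk (hd v).2 (la v).2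

/-- The data of a family of correlation vectors. -/
structure Corr (X : SimpleGraph V) [DecidableRel X.Adj] (q : ℕ) (kk : V → V → W) (Λ : W → W)
    (n : ℝ) (ρ : ℕ) : Prop where
  reg : X.IsRegularOfDegree (q + 1)
  two : 2 ≤ q
  left : ∀ u v, ∑ t ∈ X.neighborFinset u, kk t v = Λ (kk u v)
  right : ∀ u v, ∑ t ∈ X.neighborFinset v, kk u t = Λ (kk u v)
  lip : ∀ v w, ‖Λ v - Λ w‖ ≤ (q + 1) * ‖v - w‖
  bessel : ∀ (J : Finset ℕ) (U : ℕ → Finset (List (V × V))) (l i : ℕ → ℕ) (x : V × V)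
    (e : ℕ → ℝ), Function.Injective l → (∀ j ∈ J, l j ≤ ρ) →
    (∀ j ∈ J, Good X (l j) (i j) x (U j)) →
      ‖∑ j ∈ J, e j • ∑ v ∈ U j, val kk v‖ ^ 2 ≤ n * ∑ j ∈ J, e j ^ 2 * (U j).card

variable {X : SimpleGraph V} [DecidableRel X.Adj] {q : ℕ} {kk : V → V → W} {Λ : W → W} {n : ℝ}
  {ρ : ℕ}

theorem sum_okL (C : Corr X q kk Λ n ρ) {v : List (V × V)} (hv : Red X v) (h0 : v ≠ []) :
    ∑ t ∈ okL X v, val kk ((t, (hd v).1) :: v) = Λ (val kk v) - kk (hd v).2 (la v).2 := by
  rw [eq_sub_iff_add_eq, val, ← C.left, ← sum_erase_add _ _ (hd_nbr hv h0), okL]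
  simp [val, la_cons h0]

theorem sum_okR (C : Corr X q kk Λ n ρ) {v : List (V × V)} (hv : Red X v) (h0 : v ≠ []) :
    ∑ t ∈ okR X v, val kk (v ++ [((la v).2, t)]) = Λ (val kk v) - kk (hd v).1 (la v).1 := by
  rw [eq_sub_iff_add_eq, val, ← C.right, ← sum_erase_add _ _ (la_nbr hv h0), okR]
  simp [val, hd_append h0]

theorem sum_slide (C : Corr X q kk Λ n ρ) {l i : ℕ} {x : V × V} {U : Finset (List (V × V))}
    (h : Good X l i x U) :
    ∑ v ∈ U, slide kk v = ∑ v ∈ XL X U, val kk v - ∑ v ∈ XR X U, val kk v := by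
  rw [sum_XL, sum_XR, ← sum_sub_distrib]
  refine sum_congr rfl (fun v hv => ?_)
  rw [sum_okL C (h v hv).1 (h.ne hv), sum_okR C (h v hv).1 (h.ne hv), slide]
  abel

theorem sum_slide_step (C : Corr X q kk Λ n ρ) {l i : ℕ} {x : V × V}
    {U : Finset (List (V × V))} (h : Good X l i x U) :
    ∑ v ∈ XL X (XR X U), slide kk v = (q : ℝ) • ∑ v ∈ U, slide kk v := by
  rw [sum_slide C h, smul_sub]
  simp only [slide, sum_sub_distrib]
  congr 1
  · rw [sum_XL, sum_XR, sum_XL, smul_sum]
    refine sum_congr rfl (fun u hu => ?_)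
    have h0 := h.ne hu
    rw [sum_congr rfl (g := fun _ => ∑ t ∈ okL X u, val kk ((t, (hd u).1) :: u)), sum_const,
      card_okR C.reg (h u hu).1 h0, Nat.cast_smul_eq_nsmul]
    intro b _
    rw [okL, hd_append h0]
    simp only [okL, hd_cons, val, la_cons h0,
      la_cons (List.append_ne_nil_of_left_ne_nil h0 _), la_concat]
  · rw [sum_XL, smul_sum]
    refine sum_congr rfl (fun u hu => ?_)
    have h0 := h.xr.ne hu
    simp only [hd_cons, la_cons h0, sum_const]
    rw [card_okL C.reg (h.xr u hu).1 h0, Nat.cast_smul_eq_nsmul, val]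

theorem sum_slide_Fam (C : Corr X q kk Λ n ρ) {w : List (V × V)} (hw : Red X w) (h0 : w ≠ [])
    (j : ℕ) : ∑ v ∈ Fam X w j, slide kk v = ((q : ℝ) ^ j) • slide kk w := by
  induction j with
  | zero => simp [Fam]
  | succ j ih => rw [Fam, sum_slide_step C (good_Fam hw h0 j), ih, smul_smul, pow_succ']

omit [DecidableEq V] in
theorem level_bound (C : Corr X q kk Λ n ρ) (U : ℕ → Finset (List (V × V))) (l N : ℕ)
    (i : ℕ → ℕ) (x : V × V) (hρ : l + 2 * N ≤ ρ) (hU : ∀ j, Good X (l + 2 * j + 1) (i j) x (U j))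
    (hc : ∀ j, (U j).card = q ^ (2 * j + 1)) :
    ‖∑ j ∈ range N, ((q : ℝ) ^ j)⁻¹ • ∑ v ∈ U j, val kk v‖ ≤ √(n * (N * q)) := by
  have hq : (0 : ℝ) < q := by have := C.two; positivity
  have hB := C.bessel (range N) U (fun j => l + 2 * j + 1) i x (fun j => ((q : ℝ) ^ j)⁻¹)
    (fun a b h => by simp only at h; omega) (fun j hj => by rw [mem_range] at hj; omega)
    fun j _ => hU j
  have e2 : ∑ j ∈ range N, (((q : ℝ) ^ j)⁻¹) ^ 2 * (U j).card = N * q := by
    rw [sum_congr rfl (g := fun _ => (q : ℝ))]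
    · simp
    · intro j _
      rw [hc j]
      push_cast
      field_simp
      ring
  rw [e2] at hB
  exact Real.le_sqrt_of_sq_le hB

theorem slide_bound (C : Corr X q kk Λ n ρ) {N : ℕ} (hN : 0 < N)
    {w : List (V × V)} (hw : Red X w) (h0 : w ≠ []) (hρ : w.length + 2 * N ≤ ρ) :
    ‖slide kk w‖ ≤ 2 * √(n * q / N) := by
  have hq : (0 : ℝ) < q := by have := C.two; positivity
  have hN' : (0 : ℝ) < N := by positivity
  have h1 := level_bound C (fun j => XL X (Fam X w j)) _ N _ _ hρ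
    (fun j => (good_Fam hw h0 j).xl)
    (fun j => by rw [card_XL C.reg (good_Fam hw h0 j), card_Fam C.reg hw h0]; ring)
  have h2 := level_bound C (fun j => XR X (Fam X w j)) _ N _ _ hρ
    (fun j => (good_Fam hw h0 j).xr)
    (fun j => by rw [card_XR C.reg (good_Fam hw h0 j), card_Fam C.reg hw h0]; ring)
  have e : (N : ℝ) • slide kk w =
      ∑ j ∈ range N, ((q : ℝ) ^ j)⁻¹ • ∑ v ∈ XL X (Fam X w j), val kk v -
      ∑ j ∈ range N, ((q : ℝ) ^ j)⁻¹ • ∑ v ∈ XR X (Fam X w j), val kk v := by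
    rw [← sum_sub_distrib, sum_congr rfl (g := fun _ => slide kk w)]
    · simp [Nat.cast_smul_eq_nsmul]
    · intro j _
      rw [← smul_sub, ← sum_slide C (good_Fam hw h0 j), sum_slide_Fam C hw h0, smul_smul,
        inv_mul_cancel₀ (by positivity), one_smul]
  have h3 : N * ‖slide kk w‖ ≤ 2 * √(n * (N * q)) := by
    have := norm_sub_le_of_le h1 h2
    rw [← e, norm_smul, Real.norm_natCast] at this
    linarith
  have e3 : √(n * (N * q)) = N * √(n * q / N) := by
    rw [show n * (N * q) = (N : ℝ) ^ 2 * (n * q / N) by field_simp,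
      Real.sqrt_mul (by positivity), Real.sqrt_sq hN'.le]
  rw [e3] at h3
  nlinarith

theorem diag_close (C : Corr X q kk Λ n ρ) {N : ℕ} (hN : 0 < N) (hρ : 1 + 2 * N ≤ ρ) {u v : V}
    (p : X.Walk u v) : ‖kk u u - kk v v‖ ≤ p.length * (2 * √(n * q / N)) := by
  induction p with
  | nil => simp
  | cons h p ih =>
    have := norm_add_le_of_le (slide_bound C hN (red_single h) (by simp) hρ) ih
    simp only [slide, hd_cons, la_single, sub_add_sub_cancel] at this
    simp only [SimpleGraph.Walk.length_cons, Nat.cast_add, Nat.cast_one]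
    linarith

omit [Inhabited V] in
theorem exists_nbr (hq : X.IsRegularOfDegree (q + 1)) (h2 : 2 ≤ q) (u x y : V) :
    ∃ a, X.Adj u a ∧ a ≠ x ∧ a ≠ y := by
  have h : 0 < (((X.neighborFinset u).erase x).erase y).card := by
    have h1 := pred_card_le_card_erase (s := X.neighborFinset u) (a := x)
    have h2 := pred_card_le_card_erase (s := (X.neighborFinset u).erase x) (a := y)
    have : (X.neighborFinset u).card = q + 1 := hq u
    omega
  obtain ⟨a, ha⟩ := card_pos.1 h
  simp only [mem_erase, SimpleGraph.mem_neighborFinset] at ha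
  exact ⟨a, ha.2.2, ha.2.1, ha.1⟩

/-- Two right extensions of the same path are close. -/
theorem ext_close (C : Corr X q kk Λ n ρ) {N : ℕ} (hN : 0 < N) {w : List (V × V)}
    {e e' : V × V} (h1 : Red X (w ++ [e])) (h2 : Red X (w ++ [e'])) (he : e.1 = e'.1)
    (hρ : w.length + 2 + 2 * N ≤ ρ) :
    ‖val kk (w ++ [e]) - val kk (w ++ [e'])‖ ≤ 4 * √(n * q / N) := by
  have hh : (hd (w ++ [e])).1 = (hd (w ++ [e'])).1 := by
    cases w with
    | nil => exact he
    | cons b w => rfl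
  obtain ⟨a, ha, h3, h4⟩ := exists_nbr C.reg C.two (hd (w ++ [e])).1 (hd (w ++ [e])).2
    (hd (w ++ [e'])).2
  have b1 := slide_bound C hN (red_cons h1 (by simp) (t := a) (by simp [okL, ha, h3])) (by simp)
    (by simp; omega)
  have b2 := slide_bound C hN (red_cons h2 (by simp) (t := a) (by simp [okL, ← hh, ha, h4]))
    (by simp) (by simp; omega)
  simp only [slide, hd_cons] at b1 b2
  simp only [← List.cons_append, la_concat] at b1 b2
  have := norm_sub_le_of_le b2 b1
  rw [he, sub_sub_sub_cancel_left] at this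
  simp only [val, la_concat]
  linarith

omit [Inhabited V] [Fintype V] [DecidableEq V] in
theorem near_avg {κ : Type} (T : Finset κ) (x : W) (f : κ → W) {δ : ℝ}
    (h : ∀ t ∈ T, ‖x - f t‖ ≤ δ) : ‖(T.card : ℝ) • x - ∑ t ∈ T, f t‖ ≤ T.card * δ := by
  rw [Nat.cast_smul_eq_nsmul, ← sum_const, ← sum_sub_distrib, ← nsmul_eq_mul, ← sum_const]
  exact (norm_sum_le _ _).trans (sum_le_sum h)

/-- Every short path is close to the radial solution. -/
theorem radial_close (C : Corr X q kk Λ n ρ) {N : ℕ} (hN : 0 < N) {D : ℝ}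
    (hD : √(n * q / N) ≤ D) (Φ : ℕ → W) (h0 : ∀ u, ‖kk u u - Φ 0‖ ≤ D)
    (h1 : ((q : ℝ) + 1) • Φ 1 = Λ (Φ 0))
    (h2 : ∀ l, (q : ℝ) • Φ (l + 2) = Λ (Φ (l + 1)) - Φ l) (l : ℕ) :
    ∀ w : List (V × V), Red X w → w.length = l + 1 → l + 2 + 2 * N ≤ ρ →
      ‖kk (hd w).1 (la w).1 - Φ l‖ ≤ 5 ^ l * D ∧ ‖val kk w - Φ (l + 1)‖ ≤ 5 ^ (l + 1) * D := by
  have hq2 : (2 : ℝ) ≤ q := by exact_mod_cast C.two
  have hD0 : 0 ≤ D := (Real.sqrt_nonneg _).trans hD
  induction l with
  | zero =>
    intro w hw hl hρ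
    obtain ⟨⟨a, b⟩, rfl⟩ := List.length_eq_one_iff.1 hl
    refine ⟨by simpa using h0 a, ?_⟩
    have hA := near_avg (X.neighborFinset a) (kk a b) (fun t => kk a t) (δ := 4 * D) fun t ht =>
      (ext_close C hN (w := []) (e := (a, b)) (e' := (a, t)) hw
        (red_single ((SimpleGraph.mem_neighborFinset _ _ _).1 ht)) rfl (by simpa using hρ)).trans
        (by linarith)
    have hc : (X.neighborFinset a).card = q + 1 := C.reg a
    rw [hc, C.right] at hA
    push_cast at hA
    have i3 := (C.lip _ _).trans (mul_le_mul_of_nonneg_left (h0 a) (by positivity))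
    have i4 := norm_add_le_of_le hA i3
    rw [sub_add_sub_cancel, ← h1, ← smul_sub, norm_smul,
      Real.norm_of_nonneg (by positivity), ← mul_add] at i4
    have := le_of_mul_le_mul_left i4 (by positivity)
    simp only [val, hd_cons, la_single, zero_add]
    linarith
  | succ l ih =>
    intro w hw hl hρ
    obtain ⟨v, e, rfl⟩ := (List.eq_nil_or_concat' w).resolve_left (by rintro rfl; simp at hl)
    have hl' : v.length = l + 1 := by simpa using hl
    have hv0 : v ≠ [] := by rintro rfl; simp at hl'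
    obtain ⟨hv, -, he, -⟩ := (red_append hv0 (by simp)).1 hw
    obtain ⟨i2, i1⟩ := ih v hv hl' (by omega)
    simp only [hd_cons] at he
    refine ⟨by simpa [hd_append hv0, ← he, val] using i1, ?_⟩
    have hA := near_avg (okR X v) (val kk (v ++ [e])) (fun t => val kk (v ++ [((la v).2, t)]))
      (δ := 4 * D) fun t ht =>
        (ext_close C hN hw (red_concat hv hv0 ht) he.symm (by omega)).trans (by linarith)
    rw [card_okR C.reg hv hv0, sum_okR C hv hv0] at hA
    have i3 := (C.lip _ _).trans (mul_le_mul_of_nonneg_left i1 (by positivity))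
    have e1 : (q : ℝ) • (val kk (v ++ [e]) - Φ (l + 2)) =
        ((q : ℝ) • val kk (v ++ [e]) - (Λ (val kk v) - kk (hd v).1 (la v).1)) +
          ((Λ (val kk v) - Λ (Φ (l + 1))) - (kk (hd v).1 (la v).1 - Φ l)) := by
      rw [smul_sub, h2]; abel
    have i4 := norm_add_le_of_le hA (norm_sub_le_of_le i3 i2)
    rw [← e1, norm_smul, Real.norm_natCast] at i4
    have hp : (1 : ℝ) ≤ 5 ^ l := one_le_pow₀ (by norm_num)
    refine le_of_mul_le_mul_left (i4.trans ?_) (show (0 : ℝ) < q by linarith)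
    rw [pow_succ, pow_succ, pow_succ]
    set P : ℝ := 5 ^ l
    have : 0 ≤ D * (q * (25 * P) - (q * 4 + (q + 1) * (P * 5) + P)) :=
      mul_nonneg hD0 (by nlinarith)
    nlinarith

/-- Long paths have small correlation. -/
theorem long_small (C : Corr X q kk Λ n ρ) {N : ℕ} (hN : 0 < N) {D : ℝ}
    (hD : √(n * q / N) ≤ D) (Φ : ℕ → W) (h0 : ∀ u, ‖kk u u - Φ 0‖ ≤ D)
    (h1 : ((q : ℝ) + 1) • Φ 1 = Λ (Φ 0))
    (h2 : ∀ l, (q : ℝ) • Φ (l + 2) = Λ (Φ (l + 1)) - Φ l) (l : ℕ)
    (w : List (V × V)) (hw : Red X w) (hl : w.length = l + 1) (hρ : l + 2 + 2 * N ≤ ρ) :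
    ‖val kk w‖ ≤ 2 * (5 ^ (l + 1) * D) + √(n / q ^ l) := by
  have hq : (0 : ℝ) < q := by have := C.two; positivity
  obtain ⟨a, ha, -, -⟩ := exists_nbr C.reg C.two default default default
  have hr := red_single ha
  have hg := good_FamR hr (by simp) l
  have hc := card_FamR C.reg hr (by simp) l
  set U := FamR X [(default, a)] l
  have hB := C.bessel {l + 1} (fun _ => U) id (fun _ => 0) _ (fun _ => 1) Function.injective_id
    (by simp; omega) (by simpa [add_comm] using hg)
  simp only [sum_singleton, one_smul, one_pow, one_mul, hc, Nat.cast_pow] at hB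
  have hB' := Real.le_sqrt_of_sq_le hB
  have hw' := (radial_close C hN hD Φ h0 h1 h2 l w hw hl hρ).2
  have hA := near_avg U (val kk w) (val kk) (δ := 2 * (5 ^ (l + 1) * D)) fun v hv => by
    have := (radial_close C hN hD Φ h0 h1 h2 l v (hg v hv).1
      (by simpa [add_comm] using (hg v hv).2.1) hρ).2
    have h3 := norm_sub_le_of_le hw' this
    rw [sub_sub_sub_cancel_right] at h3
    linarith
  have h4 := norm_add_le_of_le hA hB'
  rw [sub_add_cancel, norm_smul, Real.norm_of_nonneg (by positivity), hc, Nat.cast_pow] at h4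
  have e3 : √(n * q ^ l) = q ^ l * √(n / q ^ l) := by
    rw [show n * (q : ℝ) ^ l = ((q : ℝ) ^ l) ^ 2 * (n / q ^ l) by field_simp,
      Real.sqrt_mul (by positivity), Real.sqrt_sq (by positivity)]
  rw [e3, ← mul_add] at h4
  exact le_of_mul_le_mul_left h4 (by positivity)

end

end Pool.Agent.GraphBerry
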