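import Pool.Agent.P.MP_6b977f_mp.GB.Mult

/-! A good basis of one eigenspace. -/

namespace Pool.Agent.GraphBerry

open Finset MeasureTheory

noncomputable section

section Aux

variable {V : Type} [Fintype V] [DecidableEq V] {X : SimpleGraph V} [DecidableRel X.Adj]
  {G : Type} [Group G] [Fintype G] [MulAction G V] {b : V → V → ℝ} {lam : V → ℝ} {β : ℝ}

variable (G) in
/-- The empirical characteristic function. -/
def chi (ψ a : V → ℝ) : ℂ :=
  (∑ h : G, Complex.exp (((∑ u, a u * ψ (h • u) : ℝ) : ℂ) * Complex.I)) / (Fintype.card G : ℂ)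

/-- The quadratic form of a kernel. -/
def sg (K : V → V → ℝ) (a : V → ℝ) : ℝ := ∑ u, ∑ v, a u * a v * K u v

theorem young (E : Eb X G b lam β) (a f : V → ℝ) :
    Fintype.card V / Fintype.card G * ∑ h : G, (∑ u, a u * f (h • u)) ^ 2 ≤
      (∑ u, |a u|) ^ 2 * (β * ∑ x, f x ^ 2) := by
  have h : ∀ x : G, (∑ u, a u * f (x • u)) ^ 2 ≤ (∑ u, |a u|) * ∑ u, |a u| * f (x • u) ^ 2 := by
    intro x
    refine sum_sq_le_sum_mul_sum_of_sq_le_mul _ (fun u _ => abs_nonneg _)
      (fun u _ => by positivity) fun u _ => le_of_eq ?_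
    rw [← mul_assoc, ← sq, sq_abs, mul_pow]
  refine (mul_le_mul_of_nonneg_left (sum_le_sum fun x _ => h x) (by positivity)).trans ?_
  rw [← mul_sum, sum_comm, sq, mul_assoc, mul_left_comm]
  refine mul_le_mul_of_nonneg_left ?_ (by positivity)
  rw [sum_mul, mul_sum]
  refine sum_le_sum fun u _ => ?_
  rw [← mul_sum, mul_left_comm]
  exact mul_le_mul_of_nonneg_left (avg_le E (fun x => sq_nonneg (f x)) u) (abs_nonneg _)

theorem chi_lip (E : Eb X G b lam β) [Nonempty V] {ψ : V → ℝ}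
    (hψ : ∑ x, ψ x ^ 2 = Fintype.card V) (a a' : V → ℝ) :
    ‖chi G ψ a - chi G ψ a'‖ ≤ (∑ u, |a u - a' u|) * β := by
  have hn : (0 : ℝ) < Fintype.card G := by exact_mod_cast Fintype.card_pos
  have hV : (0 : ℝ) < Fintype.card V := by exact_mod_cast Fintype.card_pos
  rw [chi, chi, ← sub_div, norm_div, Complex.norm_natCast, div_le_iff₀ hn, ← sum_sub_distrib]
  refine (norm_sum_le _ _).trans ((sum_le_sum fun x _ => norm_exp_sub _ _).trans ?_)
  have h1 : ∀ x : G, |∑ u, a u * ψ (x • u) - ∑ u, a' u * ψ (x • u)| ≤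
      ∑ u, |a u - a' u| * ((1 + ψ (x • u) ^ 2) / 2) := by
    intro x
    rw [← sum_sub_distrib]
    refine (abs_sum_le_sum_abs _ _).trans (sum_le_sum fun u _ => ?_)
    rw [← sub_mul, abs_mul]
    refine mul_le_mul_of_nonneg_left ?_ (abs_nonneg _)
    rw [← sq_abs (ψ (x • u))]
    nlinarith [sq_nonneg (|ψ (x • u)| - 1)]
  refine (sum_le_sum fun x _ => h1 x).trans ?_
  rw [sum_comm, mul_assoc, sum_mul]
  refine sum_le_sum fun u _ => ?_
  rw [← mul_sum, ← sum_div, sum_add_distrib, sum_const, card_univ, nsmul_eq_mul, mul_one]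
  refine mul_le_mul_of_nonneg_left ?_ (abs_nonneg _)
  have h2 := avg_le E (fun x => sq_nonneg (ψ x)) u
  rw [hψ, div_mul_eq_mul_div, div_le_iff₀ hn, mul_comm β, mul_assoc] at h2
  have h3 := le_of_mul_le_mul_left h2 hV
  nlinarith [E.one]

omit [DecidableEq V] in
theorem sg_lip {K : V → V → ℝ} (hK : ∀ u v, |K u v| ≤ β) (a a' : V → ℝ) :
    |sg K a - sg K a'| ≤ (∑ u, |a u - a' u|) * β * (∑ u, |a u| + ∑ u, |a' u|) := by
  have e : sg K a - sg K a' = ∑ u, ∑ v, (a u - a' u) * a v * K u v +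
      ∑ u, ∑ v, a' u * (a v - a' v) * K u v := by
    simp only [sg, ← sum_sub_distrib, ← sum_add_distrib]
    exact sum_congr rfl fun _ _ => sum_congr rfl fun _ _ => by ring
  have h1 := form_le (fun u => a u - a' u) a K fun _ _ _ _ => hK _ _
  have h2 := form_le a' (fun u => a u - a' u) K fun _ _ _ _ => hK _ _
  rw [e]
  refine (abs_add_le _ _).trans ((add_le_add h1 h2).trans (le_of_eq ?_))
  ring

theorem abs_Kp (E : Eb X G b lam β) (I : Finset V) (u v : V) : |Kp G b I u v| ≤ β := by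
  have := E.one
  rw [Kp, abs_div, Nat.abs_cast]
  refine div_le_of_le_mul₀ (by positivity) (by positivity) ((abs_sum_le_sum_abs _ _).trans ?_)
  simpa [mul_comm] using sum_le_card_nsmul I _ β fun j _ => abs_kc E j u v

theorem comb_orth (E : Eb X G b lam β) (I : Finset V) (c c' : V → ℝ) :
    ∑ x, (∑ j ∈ I, c j * b j x) * (∑ j ∈ I, c' j * b j x) = ∑ j ∈ I, c j * c' j := by
  simp only [sum_mul_sum]
  rw [sum_comm]
  refine sum_congr rfl fun j hj => ?_
  rw [sum_comm, sum_congr rfl (g := fun k => c j * c' k * if j = k then 1 else 0)]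
  · simp [hj]
  · intro k _
    rw [← E.orth, mul_sum]
    exact sum_congr rfl fun _ _ => by ring

/-- The coefficient vector of a local observable. -/
def gam (b : V → V → ℝ) (I : Finset V) (a : V → ℝ) (x : G) (j : I) : ℝ :=
  √(Fintype.card V / I.card) * ∑ u, a u * b j (x • u)

theorem gam_sq (E : Eb X G b lam β) (μ : ℝ) (a : V → ℝ) (x : G) :
    ∑ j, gam b (esp lam μ) a x j ^ 2 = sg (Kp G b (esp lam μ)) a := by
  simp only [gam, mul_pow]
  rw [Real.sq_sqrt (by positivity), ← mul_sum,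
    sum_coe_sort (esp lam μ) (fun j => (∑ u, a u * b j (x • u)) ^ 2)]
  simp only [sq, sum_mul_sum, sg]
  rw [sum_comm, mul_sum]
  refine sum_congr rfl fun u _ => ?_
  rw [sum_comm, mul_sum]
  refine sum_congr rfl fun v _ => ?_
  rw [Kp, ← proj_kc E, ← proj_inv E μ x,
    sum_congr rfl (g := fun j => a u * a v * (b j (x • u) * b j (x • v))) fun _ _ => by ring,
    ← mul_sum]
  ring

theorem gam_op (E : Eb X G b lam β) (I : Finset V) (a : V → ℝ) {A : ℝ} (hA : ∑ u, |a u| ≤ A)
    (c : I → ℝ) : ∑ x : G, (∑ j, c j * gam b I a x j) ^ 2 ≤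
      Fintype.card G / Fintype.card I * (A * β) ^ 2 * ∑ j, c j ^ 2 := by
  have hG : (0 : ℝ) < Fintype.card G := by exact_mod_cast Fintype.card_pos
  have h0 : 0 ≤ ∑ j, c j ^ 2 := by positivity
  have h4 : √((Fintype.card V : ℝ) / I.card) ^ 2 = Fintype.card V / I.card :=
    Real.sq_sqrt (by positivity)
  have h5 : (0 : ℝ) ≤ Fintype.card G / I.card := by positivity
  have h6 : (∑ u, |a u|) ^ 2 * β ≤ (A * β) ^ 2 := by
    have h7 : (∑ u, |a u|) ^ 2 ≤ A ^ 2 := by gcongr
    have := E.one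
    rw [mul_pow]
    exact mul_le_mul h7 (by nlinarith) (by linarith) (sq_nonneg _)
  have h8 : (Fintype.card V : ℝ) / I.card =
      Fintype.card G / I.card * (Fintype.card V / Fintype.card G) := by field_simp
  let c' : V → ℝ := fun j => if h : j ∈ I then c ⟨j, h⟩ else 0
  have hc : ∀ j : I, c j = c' j := fun j => by simp [c', j.2]
  have h1 : ∀ x : G, ∑ j, c j * gam b I a x j =
      √(Fintype.card V / I.card) * ∑ u, a u * ∑ j ∈ I, c' j * b j (x • u) := by
    intro x
    simp only [gam, hc, mul_sum]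
    rw [sum_coe_sort I (fun j => ∑ u, c' j * (√(Fintype.card V / I.card) * (a u * b j (x • u)))),
      sum_comm]
    exact sum_congr rfl fun _ _ => sum_congr rfl fun _ _ => by ring
  have h2 := young E a (fun x => ∑ j ∈ I, c' j * b j x)
  simp only [sq (∑ j ∈ I, c' j * b j _), comb_orth E] at h2
  have h3 : ∑ j, c j ^ 2 = ∑ j ∈ I, c' j * c' j := by
    rw [← sum_coe_sort I (fun j => c' j * c' j)]
    exact sum_congr rfl fun j _ => by rw [hc, sq]
  simp only [h1, mul_pow _ _ 2, h4]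
  rw [← mul_pow, ← mul_sum, Fintype.card_coe, h8, mul_assoc, mul_assoc]
  rw [← h3, ← mul_assoc] at h2
  exact mul_le_mul_of_nonneg_left (h2.trans (mul_le_mul_of_nonneg_right h6 h0)) h5

end Aux

theorem space_good (b₀ R : ℕ) {β η δ : ℝ} (hβ : 1 ≤ β) (hη : 0 < η) (hη1 : η ≤ 1) (hδ : 0 < δ) :
    ∃ C : ℝ, 0 ≤ C ∧ ∀ (V : Type) [Fintype V] [DecidableEq V] (X : SimpleGraph V)
      [DecidableRel X.Adj] (G : Type) [Group G] [Fintype G] [MulAction G V]
      (b : V → V → ℝ) (lam : V → ℝ), Eb X G b lam β → ∀ (μ : ℝ) (B : Finset V), B.card ≤ b₀ →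
      ∃ F : OG (esp lam μ) → V → ℝ, (∀ i, Continuous fun O => F O i) ∧ (∀ O i, 0 ≤ F O i) ∧
        (∀ [MeasurableSpace (OG (esp lam μ))] [BorelSpace (OG (esp lam μ))]
          (ν : Measure (OG (esp lam μ))) [IsProbabilityMeasure ν] [ν.IsMulLeftInvariant],
          ∫ O, ∑ i ∈ esp lam μ, F O i ∂ν ≤ δ * (esp lam μ).card + C) ∧
        ∀ O i (hi : i ∈ esp lam μ), F O i < 1 → ∀ c : V → ℝ,
          (∀ j : esp lam μ, c j = √(Fintype.card V) * O.1 ⟨i, hi⟩ j) →
          ∀ a : V → ℝ, (∀ u ∉ B, a u = 0) → ∑ u, |a u| ≤ R →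
          ‖chi G (fun x => ∑ j ∈ esp lam μ, c j * b j x) a -
            (Real.exp (-(sg (Kp G b (esp lam μ)) a / 2)) : ℝ)‖ ≤ η := by
  obtain ⟨t, ht⟩ := exists_nat_gt ((b₀ + 1 : ℝ) * (β * (4 * R + 4)) / η)
  have ht1 : (b₀ + 1 : ℝ) * (β * (4 * R + 4)) < t * η := (div_lt_iff₀ hη).1 ht
  have hR0 : (0 : ℝ) ≤ R := by positivity
  have hb0 : (0 : ℝ) ≤ b₀ := by positivity
  have ht0 : (0 : ℝ) ≤ t := by positivity
  have hβR : (1 : ℝ) ≤ β * (4 * R + 4) := by nlinarith
  have ht2 : (b₀ : ℝ) < t := by nlinarith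
  have ht3 : b₀ < t := by exact_mod_cast ht2
  have ht4 : (0 : ℝ) < t := by linarith
  set T₀ : ℝ := (2 * (t * R) + 1) ^ b₀ with hT₀
  have hT : 0 < T₀ := by positivity
  set θ := δ * (η / 2) ^ 2 / T₀ with hθ
  have hθ0 : 0 < θ := by positivity
  set C₂ := (((R : ℝ) + 1) * β) ^ 4 / θ + 288 * Real.exp (2 * (((R : ℝ) + 1) * β) ^ 2) with hC₂
  refine ⟨T₀ * C₂ / (η / 2) ^ 2, by positivity, ?_⟩
  intro V _ _ X _ G _ _ _ b lam E μ B hB
  set I := esp lam μ with hI
  set F : OG I → I → ℝ := fun O i => ∑ h ∈ net B t R,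
    dfc (fun x : G => √(Fintype.card I) * rv O i (gam b I (fun u => (h u : ℝ) / t) x))
      (Real.exp (-((sg (Kp G b I) fun u => (h u : ℝ) / t) / 2))) with hF
  have hF0 : ∀ O i, 0 ≤ F O i := fun O i => sum_nonneg fun _ _ => dfc_nonneg _ _
  refine ⟨fun O i => if h : i ∈ I then F O ⟨i, h⟩ / (η / 2) ^ 2 else 0, fun i => ?_,
    fun O i => ?_, ?_, ?_⟩
  · beta_reduce
    split_ifs
    · exact (continuous_finsetSum _ fun t _ => cont_dfc _ _ _).div_const _
    · exact continuous_const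
  · beta_reduce
    split_ifs
    · exact div_nonneg (hF0 _ _) (sq_nonneg _)
    · exact le_rfl
  · intro _ _ ν _ _
    have hO := mean_good (ι := I) (X := G) ν (net B t R)
      (fun h => gam b I fun u => (h u : ℝ) / t)
      (fun h => sg (Kp G b I) fun u => (h u : ℝ) / t) (A := (R + 1) * β) hθ0
      (fun h _ x => gam_sq E μ _ x)
      (fun h hh => by
        have h1 := form_le (fun u => (h u : ℝ) / t) (fun u => (h u : ℝ) / t)
          (Kp G b I) fun _ _ _ _ => abs_Kp E _ _ _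
        have h2 := (mem_filter.1 hh).2
        refine (le_abs_self _).trans (h1.trans ?_)
        rw [← sq, mul_pow]
        gcongr
        nlinarith)
      (fun h hh c => gam_op E I _ (mem_filter.1 hh).2 c)
    have h1 : ∀ O, ∑ i ∈ I, (if h : i ∈ I then F O ⟨i, h⟩ / (η / 2) ^ 2 else 0) =
        (∑ i, F O i) / (η / 2) ^ 2 := fun O => by
      rw [← sum_coe_sort I, sum_div]
      exact sum_congr rfl fun i _ => dif_pos i.2
    have h2 : ((net B t R).card : ℝ) ≤ T₀ := by
      have := (card_net B t R).trans (Nat.pow_le_pow_right (by omega) hB)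
      rw [hT₀]; exact_mod_cast this
    have h3 := hO.trans (mul_le_mul_of_nonneg_right h2 (by positivity))
    simp only [h1, integral_div]
    refine (div_le_div_of_nonneg_right h3 (sq_nonneg _)).trans (le_of_eq ?_)
    rw [← hC₂, hθ, Fintype.card_coe]
    field_simp
  · intro O i hi hb c hc a h0 hR
    have hm : (0 : ℝ) < I.card := by exact_mod_cast card_pos.2 ⟨i, hi⟩
    have h1 : F O ⟨i, hi⟩ < (η / 2) ^ 2 := by
      beta_reduce at hb
      rwa [dif_pos hi, div_lt_one (by positivity)] at hb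
    have horth : ∑ j ∈ I, c j * c j = (Fintype.card V : ℝ) := by
      rw [← sum_coe_sort I (fun j => c j * c j), sum_congr rfl
        (g := fun j => Fintype.card V * (O.1 ⟨i, hi⟩ j * O.1 ⟨i, hi⟩ j)), ← mul_sum, og_row]
      · simp
      · intro j _
        rw [hc j, mul_mul_mul_comm, Real.mul_self_sqrt (by positivity)]
    obtain ⟨h, hh, hz⟩ := exists_net B (by omega) (hB.trans ht3.le) a h0 hR
    have h2 := (single_le_sum (f := fun h : V → ℤ =>
      dfc (fun x : G => √(Fintype.card I) * rv O ⟨i, hi⟩ (gam b I (fun u => (h u : ℝ) / t) x))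
      (Real.exp (-((sg (Kp G b I) fun u => (h u : ℝ) / t) / 2))))
      (fun _ _ => dfc_nonneg _ _) hh).trans_lt h1
    have h3 : ∀ x : G, √(Fintype.card I) * rv O ⟨i, hi⟩ (gam b I (fun u => (h u : ℝ) / t) x) =
        ∑ u, (h u : ℝ) / t * ∑ j ∈ I, c j * b j (x • u) := by
      intro x
      have e : √(Fintype.card I) * √(Fintype.card V / I.card) = √(Fintype.card V) := by
        rw [← Real.sqrt_mul (by positivity), Fintype.card_coe]
        congr 1
        field_simp
      simp only [rv, gam, mul_sum]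
      rw [sum_comm]
      refine sum_congr rfl fun u _ => ?_
      rw [← sum_coe_sort I (fun j => (h u : ℝ) / t * (c j * b j (x • u)))]
      refine sum_congr rfl fun j _ => ?_
      rw [hc j, ← e]
      ring
    simp only [h3, ← norm_sq_dfc] at h2
    have h4 := (abs_lt_of_sq_lt_sq' h2 (by positivity)).2
    have : Nonempty V := ⟨i⟩
    have h5 := chi_lip E (ψ := fun x => ∑ j ∈ I, c j * b j x) (by
      simp only [sq, comb_orth E, horth]) a (fun u => (h u : ℝ) / t)
    have h6 := sg_lip (abs_Kp E I) a (fun u => (h u : ℝ) / t)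
    have h7 := (mem_filter.1 hh).2
    have hz2 : (B.card : ℝ) / t * β * (4 * R + 4) ≤ η := by
      have : (B.card : ℝ) ≤ b₀ := by exact_mod_cast hB
      rw [mul_assoc, div_mul_eq_mul_div, div_le_iff₀ ht4]
      nlinarith
    have hz' := mul_le_mul_of_nonneg_right hz (zero_le_one.trans hβ)
    set ζ := (∑ u, |a u - (h u : ℝ) / t|) * β
    have hζ : 0 ≤ ζ := by positivity
    have h8 : ζ * (∑ u, |a u| + ∑ u, |(h u : ℝ) / t|) ≤ ζ * (2 * R + 1) :=
      mul_le_mul_of_nonneg_left (by linarith) hζ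
    have h9 : ζ * (4 * R + 4) ≤ η := (mul_le_mul_of_nonneg_right hz' (by positivity)).trans hz2
    have h10 := exp_lip (x := sg (Kp G b I) a) (y := sg (Kp G b I) fun u => (h u : ℝ) / t)
      (by rw [← gam_sq E μ a (1 : G)]; positivity) (by nlinarith)
    rw [abs_sub_comm, ← Real.norm_eq_abs, ← Complex.norm_real, Complex.ofReal_sub] at h10
    have := norm_add_le_of_le (norm_add_le_of_le h5 h4.le) h10
    rw [chi, chi, sub_add_sub_cancel, sub_add_sub_cancel] at this
    rw [chi]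
    nlinarith

end

end Pool.Agent.GraphBerry
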